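import Pool.Agent.H41.FRM.Cmp

/-!
# Composite sheets, two points

The height over the composite sheet is the same for two points, up to `ε`, if the coordinate is
deep at a third place.
-/

set_option autoImplicit false

namespace Pool.FRM

open Finset Real MvPolynomial
open Pool.STAT Pool.MIC.Frm

/-- Two places: `gb` with the system `Fb`, `g₁` with the system `F₁`, thin coordinates `th`. -/
structure Tr (K c : ℕ) (gb g₁ : ℕ → ℕ) (Fb F₁ : ℕ → PN) (th : ℕ → Prop) (E ε : ℝ) : Prop where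
  b : Nb K c gb Fb E
  o : Nb K c g₁ F₁ E
  e1 : 1 ≤ E
  eps : 0 ≤ ε
  eps1 : ε ≤ 1
  th_le : ∀ l, 1 ≤ l → l < c → th l → (2 : ℝ) ^ gb l ≤ ε * 2 ^ g₁ l
  ft_le : ∀ l, 1 ≤ l → l < c → ¬ th l → g₁ l ≤ gb l
  ft_c : ∀ l, 1 ≤ l → l < c → ¬ th l → (2 : ℝ) ^ gb c * 2 ^ g₁ l ≤ ε * 2 ^ g₁ c * 2 ^ gb l

/-- The chart coordinates `β` of the composite point with the coordinates `u`. -/
def Cp (c : ℕ) (gb : ℕ → ℕ) (Fb F₁ : ℕ → PN) (th : ℕ → Prop) (u β : ℕ → ℝ) : Prop :=
  β 0 = 0 ∧ ∀ l, 1 ≤ l → l < c → (th l → β l = eval β (F₁ l)) ∧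
    (¬ th l → β l = eval β (Fb l) + u l / 2 ^ gb l)

variable {K c : ℕ} {gb g₁ : ℕ → ℕ} {Fb F₁ : ℕ → PN} {th : ℕ → Prop} {E ε W : ℝ}

theorem wpow {K l l' : ℕ} {E W : ℝ} (hE : 1 ≤ E) (hW : W = 4 * E) (h : l ≤ l') :
    W ^ dd K l ≤ W ^ dd K l' := pow_le_pow_right₀ (by linarith) (dd_mono h)

/-- The box of a composite point. -/
theorem Tr.bd (H : Tr K c gb g₁ Fb F₁ th E ε) (hW : W = 4 * E) {u β : ℕ → ℝ}
    (hβ : Cp c gb Fb F₁ th u β) (hu : ∀ l, 1 ≤ l → l < c → ¬ th l → |u l| ≤ E) :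
    ∀ l < c, |β l| ≤ W ^ dd K l / 2 ^ gb l ∧ |β l| ≤ W ^ dd K l / 2 ^ g₁ l := by
  have hE := H.e1
  have hW4 : 4 ≤ W := by linarith
  intro l
  induction l using Nat.strong_induction_on with
  | _ l ih =>
    intro hl
    rcases Nat.eq_zero_or_pos l with h0 | h0
    · subst h0
      rw [hβ.1, abs_zero]
      constructor <;> positivity
    · obtain ⟨m, rfl⟩ : ∃ m, l = m + 1 := ⟨l - 1, by omega⟩
      have hB : (1 : ℝ) ≤ W ^ dd K m := one_le_pow₀ (by linarith)
      have ib : ∀ k < m + 1, |β k| ≤ W ^ dd K m / 2 ^ gb k := fun k hk =>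
        (ih k hk (by omega)).1.trans (div_le_div_of_nonneg_right (wpow hE hW (by omega))
          (by positivity))
      have io : ∀ k < m + 1, |β k| ≤ W ^ dd K m / 2 ^ g₁ k := fun k hk =>
        (ih k hk (by omega)).2.trans (div_le_div_of_nonneg_right (wpow hE hW (by omega))
          (by positivity))
      obtain ⟨h1, h2⟩ := hβ.2 (m + 1) h0 hl
      have hWp : 0 < W ^ dd K (m + 1) := by positivity
      by_cases ht : th (m + 1)
      · have e1 := H.o.val (l := m + 1) (by omega) hB io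
        rw [← h1 ht] at e1
        have e2 : |β (m + 1)| ≤ W ^ dd K (m + 1) / 2 ^ g₁ (m + 1) := by
          refine e1.trans (div_le_div_of_nonneg_right ?_ (by positivity))
          have := sz1 (K := K) (l := m) hE hW
          linarith
        refine ⟨e2.trans (div_le_div_of_nonneg_left hWp.le (by positivity) ?_), e2⟩
        have := H.th_le (m + 1) h0 hl ht
        have h3 : ε * (2 : ℝ) ^ g₁ (m + 1) ≤ 1 * 2 ^ g₁ (m + 1) :=
          mul_le_mul_of_nonneg_right H.eps1 (by positivity)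
        linarith
      · have e1 := H.b.val (l := m + 1) (by omega) hB ib
        have e3 : |u (m + 1) / 2 ^ gb (m + 1)| ≤ E / 2 ^ gb (m + 1) := by
          rw [abs_div, abs_of_pos (by positivity : (0 : ℝ) < 2 ^ gb (m + 1))]
          exact div_le_div_of_nonneg_right (hu _ h0 hl ht) (by positivity)
        have e2 : |β (m + 1)| ≤ W ^ dd K (m + 1) / 2 ^ gb (m + 1) := by
          rw [h2 ht]
          refine (abs_add_le _ _).trans ((add_le_add e1 e3).trans ?_)
          rw [← add_div]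
          exact div_le_div_of_nonneg_right (sz1 hE hW) (by positivity)
        refine ⟨e2, e2.trans (div_le_div_of_nonneg_left hWp.le (by positivity) ?_)⟩
        exact pow_le_pow_right₀ (by norm_num) (H.ft_le (m + 1) h0 hl ht)

/-- The composite point over the coordinates of a point is near to the point. -/
theorem Tr.near (H : Tr K c gb g₁ Fb F₁ th E ε) (hW : W = 4 * E) {u y y₁ β ζ : ℕ → ℝ}
    (hβ : Cp c gb Fb F₁ th u β) (hu : ∀ l, 1 ≤ l → l < c → ¬ th l → |u l| ≤ E)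
    (hζ : Pt c gb Fb y ζ) (hy : ∀ l, 1 ≤ l → l ≤ c → |y l| ≤ E) (hζ₁ : Pt c g₁ F₁ y₁ ζ)
    (hy₁ : ∀ l, 1 ≤ l → l ≤ c → |y₁ l| ≤ E) (huy : ∀ l, 1 ≤ l → l < c → ¬ th l → |u l - y l| ≤ ε) :
    ∀ l < c, |β l - ζ l| ≤ W ^ dd K (l + 1) * ε / 2 ^ gb l := by
  have hE := H.e1
  have hε := H.eps
  have hW4 : 4 ≤ W := by linarith
  have hbd := H.bd hW hβ hu
  have hz := H.b.pt hE hW hζ hy
  have hz₁ := H.o.pt hE hW hζ₁ hy₁
  intro l
  induction l using Nat.strong_induction_on with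
  | _ l ih =>
    intro hl
    rcases Nat.eq_zero_or_pos l with h0 | h0
    · subst h0
      rw [hβ.1, hζ.1, sub_self, abs_zero]
      positivity
    · have hB : (1 : ℝ) ≤ W ^ dd K l := one_le_pow₀ (by linarith)
      obtain ⟨h1, h2⟩ := hβ.2 l h0 hl
      by_cases ht : th l
      · have e1 : |β l - ζ l| ≤ 2 * W ^ dd K l / 2 ^ g₁ l := by
          refine (abs_sub _ _).trans ?_
          have a1 := (hbd l hl).2
          have a2 := hz₁ l hl.le
          rw [show 2 * W ^ dd K l / 2 ^ g₁ l = W ^ dd K l / 2 ^ g₁ l + W ^ dd K l / 2 ^ g₁ l by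
            ring]
          exact add_le_add a1 a2
        refine e1.trans ?_
        have e2 := H.th_le l h0 hl ht
        rw [div_le_div_iff₀ (by positivity) (by positivity)]
        have e3 : 2 * W ^ dd K l ≤ W ^ dd K (l + 1) := by
          have := sz1 (K := K) (l := l) hE hW
          have h3 : W * W ^ dd K l ≤ W ^ dd K (l + 1) := by
            rw [← pow_succ']
            refine pow_le_pow_right₀ (by linarith) ?_
            have := dd_step K l
            nlinarith [dd_pos K l]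
          have h4 : 2 * W ^ dd K l ≤ W * W ^ dd K l :=
            mul_le_mul_of_nonneg_right (by linarith) (by positivity)
          linarith
        calc 2 * W ^ dd K l * 2 ^ gb l ≤ W ^ dd K (l + 1) * (ε * 2 ^ g₁ l) :=
              mul_le_mul e3 e2 (by positivity) (by positivity)
          _ = W ^ dd K (l + 1) * ε * 2 ^ g₁ l := by ring
      · rw [h2 ht, hζ.2 l h0 hl.le]
        have e1 := H.b.lip (l := l) hl.le hB (δ := W ^ dd K l * ε) (by positivity)
          (β := β) (β' := ζ)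
          (fun k hk => ((hbd k (hk.trans hl)).1).trans (div_le_div_of_nonneg_right
            (wpow hE hW hk.le) (by positivity)))
          (fun k hk => (hz k (hk.le.trans hl.le)).trans (div_le_div_of_nonneg_right
            (wpow hE hW hk.le) (by positivity)))
          (fun k hk => (ih k hk (hk.trans hl)).trans (div_le_div_of_nonneg_right
            (mul_le_mul_of_nonneg_right (wpow hE hW (by omega)) hε) (by positivity)))
        have e2 : |u l / 2 ^ gb l - y l / 2 ^ gb l| ≤ ε / 2 ^ gb l := by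
          rw [← sub_div, abs_div, abs_of_pos (by positivity : (0 : ℝ) < 2 ^ gb l)]
          exact div_le_div_of_nonneg_right (huy l h0 hl ht) (by positivity)
        have e3 : eval β (Fb l) + u l / 2 ^ gb l - (eval ζ (Fb l) + y l / 2 ^ gb l) =
            (eval β (Fb l) - eval ζ (Fb l)) + (u l / 2 ^ gb l - y l / 2 ^ gb l) := by ring
        rw [e3]
        refine (abs_add_le _ _).trans ((add_le_add e1 e2).trans ?_)
        rw [← add_div]
        refine div_le_div_of_nonneg_right ?_ (by positivity)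
        have := sz2 (K := K) (l := l) hE hW
        have h3 : K * (W ^ dd K l) ^ K * E * (W ^ dd K l * ε) + ε =
            (K * (W ^ dd K l) ^ K * E * W ^ dd K l + 1) * ε := by ring
        rw [h3]
        exact mul_le_mul_of_nonneg_right (by linarith) hε

/-- Two composite points at the scale of the second place. -/
theorem Tr.dif (H : Tr K c gb g₁ Fb F₁ th E ε) (hW : W = 4 * E) {u u' β β' : ℕ → ℝ}
    (hβ : Cp c gb Fb F₁ th u β) (hβ' : Cp c gb Fb F₁ th u' β')
    (hu : ∀ l, 1 ≤ l → l < c → ¬ th l → |u l| ≤ E)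
    (hu' : ∀ l, 1 ≤ l → l < c → ¬ th l → |u' l| ≤ E) :
    ∀ l < c, |β l - β' l| ≤ W ^ dd K (l + 1) * (ε * 2 ^ g₁ c / 2 ^ gb c) / 2 ^ g₁ l := by
  have hE := H.e1
  have hε := H.eps
  have hW4 : 4 ≤ W := by linarith
  have hbd := H.bd hW hβ hu
  have hbd' := H.bd hW hβ' hu'
  obtain ⟨η, hη⟩ : ∃ η : ℝ, η = ε * 2 ^ g₁ c / 2 ^ gb c := ⟨_, rfl⟩
  have hη0 : 0 ≤ η := by rw [hη]; positivity
  rw [← hη]
  intro l
  induction l using Nat.strong_induction_on with
  | _ l ih =>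
    intro hl
    rcases Nat.eq_zero_or_pos l with h0 | h0
    · subst h0
      rw [hβ.1, hβ'.1, sub_self, abs_zero]
      positivity
    · have hB : (1 : ℝ) ≤ W ^ dd K l := one_le_pow₀ (by linarith)
      obtain ⟨h1, h2⟩ := hβ.2 l h0 hl
      obtain ⟨h1', h2'⟩ := hβ'.2 l h0 hl
      by_cases ht : th l
      · rw [h1 ht, h1' ht]
        refine (H.o.lip (l := l) hl.le hB (δ := W ^ dd K l * η) (by positivity)
          (fun k hk => ((hbd k (hk.trans hl)).2).trans (div_le_div_of_nonneg_right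
            (wpow hE hW hk.le) (by positivity)))
          (fun k hk => ((hbd' k (hk.trans hl)).2).trans (div_le_div_of_nonneg_right
            (wpow hE hW hk.le) (by positivity)))
          (fun k hk => (ih k hk (hk.trans hl)).trans (div_le_div_of_nonneg_right
            (mul_le_mul_of_nonneg_right (wpow hE hW (by omega)) hη0) (by positivity)))).trans ?_
        refine div_le_div_of_nonneg_right ?_ (by positivity)
        have := sz2 (K := K) (l := l) hE hW
        have h3 : K * (W ^ dd K l) ^ K * E * (W ^ dd K l * η) =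
            (K * (W ^ dd K l) ^ K * E * W ^ dd K l) * η := by ring
        rw [h3]
        exact mul_le_mul_of_nonneg_right (by linarith) hη0
      · have e1 : |β l - β' l| ≤ 2 * W ^ dd K l / 2 ^ gb l := by
          refine (abs_sub _ _).trans ?_
          have a1 := (hbd l hl).1
          have a2 := (hbd' l hl).1
          rw [show 2 * W ^ dd K l / 2 ^ gb l = W ^ dd K l / 2 ^ gb l + W ^ dd K l / 2 ^ gb l by
            ring]
          exact add_le_add a1 a2
        refine e1.trans ?_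
        have e2 := H.ft_c l h0 hl ht
        have e3 : 2 * W ^ dd K l ≤ W ^ dd K (l + 1) := by
          have h3 : W * W ^ dd K l ≤ W ^ dd K (l + 1) := by
            rw [← pow_succ']
            refine pow_le_pow_right₀ (by linarith) ?_
            have := dd_step K l
            nlinarith [dd_pos K l]
          have h4 : 2 * W ^ dd K l ≤ W * W ^ dd K l :=
            mul_le_mul_of_nonneg_right (by linarith) (by positivity)
          linarith
        have e4 : 1 / (2 : ℝ) ^ gb l ≤ η / 2 ^ g₁ l := by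
          rw [hη, div_div, div_le_div_iff₀ (by positivity) (by positivity)]
          linarith
        calc 2 * W ^ dd K l / 2 ^ gb l = 2 * W ^ dd K l * (1 / 2 ^ gb l) := by ring
          _ ≤ W ^ dd K (l + 1) * (η / 2 ^ g₁ l) := mul_le_mul e3 e4 (by positivity) (by positivity)
          _ = W ^ dd K (l + 1) * η / 2 ^ g₁ l := by ring

/-- The variation of the second system at `c` over composite points. -/
theorem Tr.top (H : Tr K c gb g₁ Fb F₁ th E ε) (hW : W = 4 * E) {u u' β β' : ℕ → ℝ}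
    (hβ : Cp c gb Fb F₁ th u β) (hβ' : Cp c gb Fb F₁ th u' β')
    (hu : ∀ l, 1 ≤ l → l < c → ¬ th l → |u l| ≤ E)
    (hu' : ∀ l, 1 ≤ l → l < c → ¬ th l → |u' l| ≤ E) :
    2 ^ gb c * |eval β (F₁ c) - eval β' (F₁ c)| ≤ W ^ dd K (c + 1) * ε := by
  have hE := H.e1
  have hε := H.eps
  have hW4 : 4 ≤ W := by linarith
  have hbd := H.bd hW hβ hu
  have hbd' := H.bd hW hβ' hu'
  have hd := H.dif hW hβ hβ' hu hu'
  obtain ⟨η, hη⟩ : ∃ η : ℝ, η = ε * 2 ^ g₁ c / 2 ^ gb c := ⟨_, rfl⟩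
  have hη0 : 0 ≤ η := by rw [hη]; positivity
  rw [← hη] at hd
  have hB : (1 : ℝ) ≤ W ^ dd K c := one_le_pow₀ (by linarith)
  have e1 := H.o.lip (l := c) le_rfl hB (δ := W ^ dd K c * η) (by positivity)
    (fun k hk => ((hbd k hk).2).trans (div_le_div_of_nonneg_right
      (wpow hE hW hk.le) (by positivity)))
    (fun k hk => ((hbd' k hk).2).trans (div_le_div_of_nonneg_right
      (wpow hE hW hk.le) (by positivity)))
    (fun k hk => (hd k hk).trans (div_le_div_of_nonneg_right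
      (mul_le_mul_of_nonneg_right (wpow hE hW (by omega)) hη0) (by positivity)))
  have e2 := mul_le_mul_of_nonneg_left e1 (by positivity : (0 : ℝ) ≤ 2 ^ gb c)
  refine e2.trans ?_
  have e3 : 2 ^ gb c * (K * (W ^ dd K c) ^ K * E * (W ^ dd K c * η) / 2 ^ g₁ c) =
      (K * (W ^ dd K c) ^ K * E * W ^ dd K c) * ε := by
    rw [hη]
    field_simp
  rw [e3]
  have := sz2 (K := K) (l := c) hE hW
  exact mul_le_mul_of_nonneg_right (by linarith) hε

/-- **The height over the composite sheet.** -/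
theorem Tr.ht (H : Tr K c gb g₁ Fb F₁ th E ε) (hW : W = 4 * E) (hc : 1 ≤ c)
    {u y y₁ β ζ u' y' y₁' β' ζ' : ℕ → ℝ}
    (hβ : Cp c gb Fb F₁ th u β) (hu : ∀ l, 1 ≤ l → l < c → ¬ th l → |u l| ≤ E)
    (hζ : Pt c gb Fb y ζ) (hy : ∀ l, 1 ≤ l → l ≤ c → |y l| ≤ E) (hζ₁ : Pt c g₁ F₁ y₁ ζ)
    (hy₁ : ∀ l, 1 ≤ l → l ≤ c → |y₁ l| ≤ E) (huy : ∀ l, 1 ≤ l → l < c → ¬ th l → |u l - y l| ≤ ε)
    (hd : |ζ c| ≤ W ^ dd K c * ε / 2 ^ gb c)
    (hβ' : Cp c gb Fb F₁ th u' β') (hu' : ∀ l, 1 ≤ l → l < c → ¬ th l → |u' l| ≤ E)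
    (hζ' : Pt c gb Fb y' ζ') (hy' : ∀ l, 1 ≤ l → l ≤ c → |y' l| ≤ E)
    (hζ₁' : Pt c g₁ F₁ y₁' ζ') (hy₁' : ∀ l, 1 ≤ l → l ≤ c → |y₁' l| ≤ E)
    (huy' : ∀ l, 1 ≤ l → l < c → ¬ th l → |u' l - y' l| ≤ ε)
    (hd' : |ζ' c| ≤ W ^ dd K c * ε / 2 ^ gb c) :
    |(y c - 2 ^ gb c * (eval β (F₁ c) - eval β (Fb c))) -
      (y' c - 2 ^ gb c * (eval β' (F₁ c) - eval β' (Fb c)))| ≤ W ^ dd K (c + 2) * ε := by
  have hE := H.e1
  have hε := H.eps
  have hW4 : 4 ≤ W := by linarith
  have hB : (1 : ℝ) ≤ W ^ dd K c := one_le_pow₀ (by linarith)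
  -- one point
  have one : ∀ u y y₁ β ζ : ℕ → ℝ, Cp c gb Fb F₁ th u β →
      (∀ l, 1 ≤ l → l < c → ¬ th l → |u l| ≤ E) → Pt c gb Fb y ζ →
      (∀ l, 1 ≤ l → l ≤ c → |y l| ≤ E) → Pt c g₁ F₁ y₁ ζ → (∀ l, 1 ≤ l → l ≤ c → |y₁ l| ≤ E) →
      (∀ l, 1 ≤ l → l < c → ¬ th l → |u l - y l| ≤ ε) → |ζ c| ≤ W ^ dd K c * ε / 2 ^ gb c →
      |(y c - 2 ^ gb c * (eval β (F₁ c) - eval β (Fb c))) + 2 ^ gb c * eval β (F₁ c)| ≤
        2 * W ^ dd K (c + 1) * ε := by
    intro u y y₁ β ζ hβ hu hζ hy hζ₁ hy₁ huy hd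
    have hbd := H.bd hW hβ hu
    have hz := H.b.pt hE hW hζ hy
    have hn := H.near hW hβ hu hζ hy hζ₁ hy₁ huy
    have e1 := H.b.lip (l := c) le_rfl hB (δ := W ^ dd K c * ε) (by positivity)
      (β := β) (β' := ζ)
      (fun k hk => ((hbd k hk).1).trans (div_le_div_of_nonneg_right
        (wpow hE hW hk.le) (by positivity)))
      (fun k hk => (hz k hk.le).trans (div_le_div_of_nonneg_right
        (wpow hE hW hk.le) (by positivity)))
      (fun k hk => (hn k hk).trans (div_le_div_of_nonneg_right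
        (mul_le_mul_of_nonneg_right (wpow hE hW (by omega)) hε) (by positivity)))
    have e2 : (y c - 2 ^ gb c * (eval β (F₁ c) - eval β (Fb c))) + 2 ^ gb c * eval β (F₁ c) =
        2 ^ gb c * ζ c + 2 ^ gb c * (eval β (Fb c) - eval ζ (Fb c)) := by
      rw [hζ.2 c hc le_rfl]
      field_simp
      ring
    rw [e2]
    refine (abs_add_le _ _).trans ?_
    rw [abs_mul, abs_mul, abs_of_pos (by positivity : (0 : ℝ) < 2 ^ gb c)]
    have e3 : 2 ^ gb c * |ζ c| ≤ W ^ dd K (c + 1) * ε := by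
      calc 2 ^ gb c * |ζ c| ≤ 2 ^ gb c * (W ^ dd K c * ε / 2 ^ gb c) :=
            mul_le_mul_of_nonneg_left hd (by positivity)
        _ = W ^ dd K c * ε := by field_simp
        _ ≤ W ^ dd K (c + 1) * ε :=
            mul_le_mul_of_nonneg_right (wpow hE hW (by omega)) hε
    have e4 : 2 ^ gb c * |eval β (Fb c) - eval ζ (Fb c)| ≤ W ^ dd K (c + 1) * ε := by
      calc 2 ^ gb c * |eval β (Fb c) - eval ζ (Fb c)|
          ≤ 2 ^ gb c * (K * (W ^ dd K c) ^ K * E * (W ^ dd K c * ε) / 2 ^ gb c) :=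
            mul_le_mul_of_nonneg_left e1 (by positivity)
        _ = (K * (W ^ dd K c) ^ K * E * W ^ dd K c) * ε := by field_simp
        _ ≤ W ^ dd K (c + 1) * ε := by
            have := sz2 (K := K) (l := c) hE hW
            exact mul_le_mul_of_nonneg_right (by linarith) hε
    linarith
  have a1 := one u y y₁ β ζ hβ hu hζ hy hζ₁ hy₁ huy hd
  have a2 := one u' y' y₁' β' ζ' hβ' hu' hζ' hy' hζ₁' hy₁' huy' hd'
  have a3 := H.top hW hβ hβ' hu hu'
  obtain ⟨a, ha⟩ : ∃ a, a = y c - 2 ^ gb c * (eval β (F₁ c) - eval β (Fb c)) := ⟨_, rfl⟩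
  obtain ⟨a', ha'⟩ : ∃ a, a = y' c - 2 ^ gb c * (eval β' (F₁ c) - eval β' (Fb c)) := ⟨_, rfl⟩
  rw [← ha] at a1 ⊢
  rw [← ha'] at a2 ⊢
  have e : a - a' = (a + 2 ^ gb c * eval β (F₁ c)) - (a' + 2 ^ gb c * eval β' (F₁ c)) -
      2 ^ gb c * (eval β (F₁ c) - eval β' (F₁ c)) := by ring
  rw [e]
  refine (abs_sub _ _).trans ?_
  rw [abs_mul, abs_of_pos (by positivity : (0 : ℝ) < 2 ^ gb c)]
  have a4 := (abs_sub (a + 2 ^ gb c * eval β (F₁ c)) (a' + 2 ^ gb c * eval β' (F₁ c))).trans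
    (add_le_add a1 a2)
  have e5 : 5 * W ^ dd K (c + 1) ≤ W ^ dd K (c + 2) := by
    have h3 : W * W * W ^ dd K (c + 1) ≤ W ^ dd K (c + 2) := by
      rw [← pow_two, ← pow_add]
      refine pow_le_pow_right₀ (by linarith) ?_
      have := dd_step K (c + 1)
      have h5 := dd_pos K (c + 1)
      nlinarith
    have h4 : 5 * W ^ dd K (c + 1) ≤ W * W * W ^ dd K (c + 1) :=
      mul_le_mul_of_nonneg_right (by nlinarith) (by positivity)
    linarith
  have e6 := mul_le_mul_of_nonneg_right e5 hε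
  nlinarith

/-- The composite sheet is bounded up to a constant. -/
theorem Tr.cf (H : Tr K c gb g₁ Fb F₁ th E ε) (hW : W = 4 * E) {u u' β β' : ℕ → ℝ}
    (hβ : Cp c gb Fb F₁ th u β) (hβ' : Cp c gb Fb F₁ th u' β')
    (hu : ∀ l, 1 ≤ l → l < c → ¬ th l → |u l| ≤ E)
    (hu' : ∀ l, 1 ≤ l → l < c → ¬ th l → |u' l| ≤ E) :
    |2 ^ gb c * (eval β (F₁ c) - eval β (Fb c)) - 2 ^ gb c * (eval β' (F₁ c) - eval β' (Fb c))| ≤
      W ^ dd K (c + 2) := by
  have hE := H.e1
  have hW4 : 4 ≤ W := by linarith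
  have hB : (1 : ℝ) ≤ W ^ dd K c := one_le_pow₀ (by linarith)
  have a3 := H.top hW hβ hβ' hu hu'
  have hv : ∀ u β : ℕ → ℝ, Cp c gb Fb F₁ th u β → (∀ l, 1 ≤ l → l < c → ¬ th l → |u l| ≤ E) →
      2 ^ gb c * |eval β (Fb c)| ≤ W ^ dd K (c + 1) := by
    intro u β hβ hu
    have hbd := H.bd hW hβ hu
    have e1 := H.b.val (l := c) le_rfl hB (fun k hk => ((hbd k hk).1).trans
      (div_le_div_of_nonneg_right (wpow hE hW hk.le) (by positivity)))
    calc 2 ^ gb c * |eval β (Fb c)| ≤ 2 ^ gb c * ((W ^ dd K c) ^ K * E / 2 ^ gb c) :=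
          mul_le_mul_of_nonneg_left e1 (by positivity)
      _ = (W ^ dd K c) ^ K * E := by field_simp
      _ ≤ W ^ dd K (c + 1) := by
          have := sz1 (K := K) (l := c) hE hW
          linarith
  have b1 := hv u β hβ hu
  have b2 := hv u' β' hβ' hu'
  have e : 2 ^ gb c * (eval β (F₁ c) - eval β (Fb c)) -
      2 ^ gb c * (eval β' (F₁ c) - eval β' (Fb c)) =
      2 ^ gb c * (eval β (F₁ c) - eval β' (F₁ c)) -
        (2 ^ gb c * eval β (Fb c) - 2 ^ gb c * eval β' (Fb c)) := by ring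
  rw [e]
  refine (abs_sub _ _).trans ?_
  have c1 : |2 ^ gb c * (eval β (F₁ c) - eval β' (F₁ c))| ≤ W ^ dd K (c + 1) * ε := by
    rw [abs_mul, abs_of_pos (by positivity : (0 : ℝ) < 2 ^ gb c)]
    exact a3
  have c2 : |2 ^ gb c * eval β (Fb c) - 2 ^ gb c * eval β' (Fb c)| ≤
      W ^ dd K (c + 1) + W ^ dd K (c + 1) := by
    refine (abs_sub _ _).trans ?_
    rw [abs_mul, abs_mul, abs_of_pos (by positivity : (0 : ℝ) < 2 ^ gb c)]
    exact add_le_add b1 b2
  have c3 : W ^ dd K (c + 1) * ε ≤ W ^ dd K (c + 1) * 1 :=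
    mul_le_mul_of_nonneg_left H.eps1 (by positivity)
  have e5 : 4 * W ^ dd K (c + 1) ≤ W ^ dd K (c + 2) := by
    have h3 : W * W ^ dd K (c + 1) ≤ W ^ dd K (c + 2) := by
      rw [← pow_succ']
      refine pow_le_pow_right₀ (by linarith) ?_
      have := dd_step K (c + 1)
      have h5 := dd_pos K (c + 1)
      nlinarith
    have h4 : 4 * W ^ dd K (c + 1) ≤ W * W ^ dd K (c + 1) :=
      mul_le_mul_of_nonneg_right hW4 (by positivity)
    linarith
  have c4 : 0 < W ^ dd K (c + 1) := by positivity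
  linarith

end Pool.FRM
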