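import Pool.Agent.H41.FRM.Cmp2

/-!
# Elimination over composite sheets

The coordinates outside `M` are on their own sheets (composite sheets at their own places): the
point is near to the point where these coordinates are `0` in the chart.
-/

set_option autoImplicit false

namespace Pool.FRM

open Finset Real MvPolynomial
open Pool.STAT Pool.MIC.Frm

/-- The chart coordinates of a point, before `c`. -/
def Ptl (c : ℕ) (g : ℕ → ℕ) (F : ℕ → PN) (y ζ : ℕ → ℝ) : Prop :=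
  ζ 0 = 0 ∧ ∀ l, 1 ≤ l → l < c → ζ l = eval ζ (F l) + y l / 2 ^ g l

theorem Ptl.mono {c c' : ℕ} {g : ℕ → ℕ} {F : ℕ → PN} {y ζ : ℕ → ℝ} (h : Ptl c g F y ζ)
    (hc : c' ≤ c) : Ptl c' g F y ζ := ⟨h.1, fun l h1 h2 => h.2 l h1 (h2.trans_le hc)⟩

theorem Nb.mono {K c c' : ℕ} {g : ℕ → ℕ} {F : ℕ → PN} {E E' : ℝ} (h : Nb K c g F E)
    (hc : c' ≤ c) (hE : E ≤ E') : Nb K c' g F E' :=
  ⟨fun l hl => h.vars l (hl.trans hc), fun l hl => h.deg l (hl.trans hc), fun l hl =>
    (h.nrm_le l (hl.trans hc)).trans (div_le_div_of_nonneg_right hE (by positivity))⟩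

theorem Nb.ptl {K c : ℕ} {g : ℕ → ℕ} {F : ℕ → PN} {E W : ℝ} (h : Nb K c g F E) (hE : 1 ≤ E)
    (hW : W = 4 * E) {y ζ : ℕ → ℝ} (hp : Ptl c g F y ζ) (hy : ∀ l, 1 ≤ l → l < c → |y l| ≤ E) :
    ∀ l < c, |ζ l| ≤ W ^ dd K l / 2 ^ g l := by
  intro l hl
  obtain ⟨m, rfl⟩ : ∃ m, c = m + 1 := ⟨c - 1, by omega⟩
  exact (h.mono (Nat.le_succ m) le_rfl).pt hE hW ⟨hp.1, fun l h1 h2 => hp.2 l h1 (by omega)⟩
    (fun l h1 h2 => hy l h1 (by omega)) l (by omega)

theorem Tr.mono {K c : ℕ} {gb g₁ : ℕ → ℕ} {Fb F₁ : ℕ → PN} {th : ℕ → Prop} {E E' ε : ℝ}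
    (H : Tr K c gb g₁ Fb F₁ th E ε) (hE : E ≤ E') : Tr K c gb g₁ Fb F₁ th E' ε :=
  ⟨H.b.mono le_rfl hE, H.o.mono le_rfl hE, H.e1.trans hE, H.eps, H.eps1, H.th_le, H.ft_le,
    H.ft_c⟩

variable {K c : ℕ} {gb g₁ : ℕ → ℕ} {Fb F₁ : ℕ → PN} {th : ℕ → Prop} {E ε W : ℝ}

/-- The composite point is near to a point whose thin coordinates are small. -/
theorem Tr.near2 (H : Tr K c gb g₁ Fb F₁ th E ε) (hW : W = 4 * E) {u y β ζ : ℕ → ℝ}
    (hβ : Cp c gb Fb F₁ th u β) (hu : ∀ l, 1 ≤ l → l < c → ¬ th l → |u l| ≤ E)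
    (hζ : Ptl c gb Fb y ζ) (hy : ∀ l, 1 ≤ l → l < c → |y l| ≤ E)
    (hζt : ∀ l, 1 ≤ l → l < c → th l → |ζ l| ≤ W ^ dd K l * ε / 2 ^ gb l)
    (huy : ∀ l, 1 ≤ l → l < c → ¬ th l → |u l - y l| ≤ ε) :
    ∀ l < c, |β l - ζ l| ≤ W ^ dd K (l + 1) * ε / 2 ^ gb l := by
  have hE := H.e1
  have hε := H.eps
  have hW4 : 4 ≤ W := by linarith
  have hbd := H.bd hW hβ hu
  have hz := H.b.ptl hE hW hζ hy
  intro l
  induction l using Nat.strong_induction_on with
  | _ l ih =>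
    intro hl
    rcases Nat.eq_zero_or_pos l with h0 | h0
    · subst h0
      rw [hβ.1, hζ.1, sub_self, abs_zero]
      positivity
    · have hB : (1 : ℝ) ≤ W ^ dd K l := one_le_pow₀ (by linarith)
      obtain ⟨h1, h2⟩ := hβ.2 l h0 hl
      by_cases ht : th l
      · have e0 : |β l| ≤ W ^ dd K l * ε / 2 ^ gb l := by
          refine ((hbd l hl).2).trans ?_
          have e2 := H.th_le l h0 hl ht
          rw [div_le_div_iff₀ (by positivity) (by positivity)]
          calc W ^ dd K l * 2 ^ gb l ≤ W ^ dd K l * (ε * 2 ^ g₁ l) :=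
                mul_le_mul_of_nonneg_left e2 (by positivity)
            _ = W ^ dd K l * ε * 2 ^ g₁ l := by ring
        have e1 : |β l - ζ l| ≤ 2 * W ^ dd K l * ε / 2 ^ gb l := by
          refine (abs_sub _ _).trans ((add_le_add e0 (hζt l h0 hl ht)).trans (le_of_eq ?_))
          ring
        refine e1.trans (div_le_div_of_nonneg_right ?_ (by positivity))
        have e3 : 2 * W ^ dd K l ≤ W ^ dd K (l + 1) := by
          have h3 : W * W ^ dd K l ≤ W ^ dd K (l + 1) := by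
            rw [← pow_succ']
            refine pow_le_pow_right₀ (by linarith) ?_
            have := dd_step K l
            nlinarith [dd_pos K l]
          have h4 : 2 * W ^ dd K l ≤ W * W ^ dd K l :=
            mul_le_mul_of_nonneg_right (by linarith) (by positivity)
          linarith
        exact mul_le_mul_of_nonneg_right e3 hε
      · rw [h2 ht, hζ.2 l h0 hl]
        have e1 := H.b.lip (l := l) hl.le hB (δ := W ^ dd K l * ε) (by positivity)
          (β := β) (β' := ζ)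
          (fun k hk => ((hbd k (hk.trans hl)).1).trans (div_le_div_of_nonneg_right
            (wpow hE hW hk.le) (by positivity)))
          (fun k hk => (hz k (hk.trans hl)).trans (div_le_div_of_nonneg_right
            (wpow hE hW hk.le) (by positivity)))
          (fun k hk => (ih k hk (hk.trans hl)).trans (div_le_div_of_nonneg_right
            (mul_le_mul_of_nonneg_right (wpow hE hW (by omega)) hε) (by positivity)))
        have e2 : |u l / 2 ^ gb l - y l / 2 ^ gb l| ≤ ε / 2 ^ gb l := by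
          rw [← sub_div, abs_div, abs_of_pos (by positivity : (0 : ℝ) < 2 ^ gb l)]
          exact div_le_div_of_nonneg_right (huy l h0 hl ht) (by positivity)
        have e3 : eval β (Fb l) + u l / 2 ^ gb l - (eval ζ (Fb l) + y l / 2 ^ gb l) =
            (eval β (Fb l) - eval ζ (Fb l)) + (u l / 2 ^ gb l - y l / 2 ^ gb l) := by ring
        rw [e3]
        refine (abs_add_le _ _).trans ((add_le_add e1 e2).trans ?_)
        rw [← add_div]
        refine div_le_div_of_nonneg_right ?_ (by positivity)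
        have := sz2 (K := K) (l := l) hE hW
        have h3 : K * (W ^ dd K l) ^ K * E * (W ^ dd K l * ε) + ε =
            (K * (W ^ dd K l) ^ K * E * W ^ dd K l + 1) * ε := by ring
        rw [h3]
        exact mul_le_mul_of_nonneg_right (by linarith) hε

/-- The values of the first system at the composite point and at the point. -/
theorem Tr.fb2 (H : Tr K c gb g₁ Fb F₁ th E ε) (hW : W = 4 * E) {u y β ζ : ℕ → ℝ}
    (hβ : Cp c gb Fb F₁ th u β) (hu : ∀ l, 1 ≤ l → l < c → ¬ th l → |u l| ≤ E)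
    (hζ : Ptl c gb Fb y ζ) (hy : ∀ l, 1 ≤ l → l < c → |y l| ≤ E)
    (hζt : ∀ l, 1 ≤ l → l < c → th l → |ζ l| ≤ W ^ dd K l * ε / 2 ^ gb l)
    (huy : ∀ l, 1 ≤ l → l < c → ¬ th l → |u l - y l| ≤ ε) :
    2 ^ gb c * |eval β (Fb c) - eval ζ (Fb c)| ≤ W ^ dd K (c + 1) * ε := by
  have hE := H.e1
  have hε := H.eps
  have hW4 : 4 ≤ W := by linarith
  have hbd := H.bd hW hβ hu
  have hz := H.b.ptl hE hW hζ hy
  have hn := H.near2 hW hβ hu hζ hy hζt huy
  have hB : (1 : ℝ) ≤ W ^ dd K c := one_le_pow₀ (by linarith)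
  have e1 := H.b.lip (l := c) le_rfl hB (δ := W ^ dd K c * ε) (by positivity)
    (β := β) (β' := ζ)
    (fun k hk => ((hbd k hk).1).trans (div_le_div_of_nonneg_right
      (wpow hE hW hk.le) (by positivity)))
    (fun k hk => (hz k hk).trans (div_le_div_of_nonneg_right
      (wpow hE hW hk.le) (by positivity)))
    (fun k hk => (hn k hk).trans (div_le_div_of_nonneg_right
      (mul_le_mul_of_nonneg_right (wpow hE hW (by omega)) hε) (by positivity)))
  calc 2 ^ gb c * |eval β (Fb c) - eval ζ (Fb c)|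
      ≤ 2 ^ gb c * (K * (W ^ dd K c) ^ K * E * (W ^ dd K c * ε) / 2 ^ gb c) :=
        mul_le_mul_of_nonneg_left e1 (by positivity)
    _ = (K * (W ^ dd K c) ^ K * E * W ^ dd K c) * ε := by field_simp
    _ ≤ W ^ dd K (c + 1) * ε := by
        have := sz2 (K := K) (l := c) hE hW
        exact mul_le_mul_of_nonneg_right (by linarith) hε

/-! ### Elimination -/

/-- The constants. -/
noncomputable def zc (K : ℕ) (E : ℝ) : ℕ → ℝ
  | 0 => E
  | l + 1 => (4 * zc K E l) ^ dd K (l + 3)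

theorem zc_ge (K : ℕ) {E : ℝ} (hE : 1 ≤ E) (l : ℕ) : E ≤ zc K E l := by
  induction l with
  | zero => exact le_rfl
  | succ l ih =>
    have h1 : 1 ≤ 4 * zc K E l := by linarith
    calc E ≤ 4 * zc K E l := by linarith
      _ = (4 * zc K E l) ^ 1 := (pow_one _).symm
      _ ≤ (4 * zc K E l) ^ dd K (l + 3) := pow_le_pow_right₀ h1 (dd_pos _ _)

theorem zc_succ (K : ℕ) {E : ℝ} (hE : 1 ≤ E) (l : ℕ) : zc K E l ≤ zc K E (l + 1) := by
  have h0 := zc_ge K hE l
  have h1 : 1 ≤ 4 * zc K E l := by linarith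
  calc zc K E l ≤ 4 * zc K E l := by linarith
    _ = (4 * zc K E l) ^ 1 := (pow_one _).symm
    _ ≤ (4 * zc K E l) ^ dd K (l + 3) := pow_le_pow_right₀ h1 (dd_pos _ _)

theorem zc_mono (K : ℕ) {E : ℝ} (hE : 1 ≤ E) {l l' : ℕ} (h : l ≤ l') : zc K E l ≤ zc K E l' :=
  monotone_nat_of_le_succ (zc_succ K hE) h

theorem w3 {K l : ℕ} {W : ℝ} (hW : 4 ≤ W) : 4 * W ^ dd K l ≤ W ^ dd K (l + 1) := by
  have h3 : W * W ^ dd K l ≤ W ^ dd K (l + 1) := by
    rw [← pow_succ']
    refine pow_le_pow_right₀ (by linarith) ?_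
    have := dd_step K l
    nlinarith [dd_pos K l]
  have h4 : 4 * W ^ dd K l ≤ W * W ^ dd K l :=
    mul_le_mul_of_nonneg_right hW (by positivity)
  linarith

/-- The places of the coordinates outside `M`. -/
structure El (K n : ℕ) (gb : ℕ → ℕ) (Fb : ℕ → PN) (gp : ℕ → ℕ → ℕ) (Fp : ℕ → ℕ → PN)
    (M : ℕ → Prop) (E ε : ℝ) : Prop where
  tr : ∀ l, 1 ≤ l → l < n → ¬ M l → Tr K l gb (gp l) Fb (Fp l) (fun k => gb k < gp l k) E ε
  thM : ∀ l, 1 ≤ l → l < n → ¬ M l → ∀ k, 1 ≤ k → k < l → gb k < gp l k → ¬ M k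
  b : Nb K n gb Fb E
  e1 : 1 ≤ E
  eps : 0 ≤ ε
  eps1 : ε ≤ 1

/-- The point `β` with the coordinates `u` over `Fb`, the coordinates outside `M` on their sheets
through the own point `ζ` with the coordinates `y`, known up to `ε`. -/
structure Elp (n : ℕ) (gb : ℕ → ℕ) (Fb : ℕ → PN) (gp : ℕ → ℕ → ℕ) (Fp : ℕ → ℕ → PN)
    (M : ℕ → Prop) (E ε : ℝ) (u β uo yo ζ : ℕ → ℝ) (bl cl : ℕ → ℕ → ℝ) : Prop where
  pt : Ptl n gb Fb u β
  uM : ∀ l, 1 ≤ l → l < n → M l → |u l| ≤ E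
  own : Ptl n gb Fb yo ζ
  ζ0 : ∀ l < n, ζ l = 0
  yoE : ∀ l, 1 ≤ l → l < n → |yo l| ≤ E
  uoE : ∀ l, 1 ≤ l → l < n → |uo l| ≤ E
  uy : ∀ l, 1 ≤ l → l < n → |uo l - yo l| ≤ ε
  cb : ∀ l, 1 ≤ l → l < n → ¬ M l → Cp l gb Fb (Fp l) (fun k => gb k < gp l k) u (bl l)
  cc : ∀ l, 1 ≤ l → l < n → ¬ M l → Cp l gb Fb (Fp l) (fun k => gb k < gp l k) uo (cl l)
  rel : ∀ l, 1 ≤ l → l < n → ¬ M l → |u l - uo l -
    2 ^ gb l * ((eval (bl l) (Fp l l) - eval (bl l) (Fb l)) -
      (eval (cl l) (Fp l l) - eval (cl l) (Fb l)))| ≤ ε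

/-- **The coordinates outside `M` are small.** -/
theorem El.small {n : ℕ} {gp : ℕ → ℕ → ℕ} {Fp : ℕ → ℕ → PN} {M : ℕ → Prop}
    {u β uo yo ζ : ℕ → ℝ} {bl cl : ℕ → ℕ → ℝ} (H : El K n gb Fb gp Fp M E ε)
    (h : Elp n gb Fb gp Fp M E ε u β uo yo ζ bl cl) :
    ∀ l, 1 ≤ l → l < n → |u l| ≤ zc K E (l + 1) ∧
      (¬ M l → |β l| ≤ zc K E (l + 1) * ε / 2 ^ gb l) := by
  have hE := H.e1
  have hε := H.eps
  intro l
  induction l using Nat.strong_induction_on with
  | _ l ih =>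
    intro h1 hl
    by_cases hM : M l
    · exact ⟨(h.uM l h1 hl hM).trans (zc_ge K hE _), fun h' => absurd hM h'⟩
    obtain ⟨A, hA⟩ : ∃ A : ℝ, A = zc K E l := ⟨_, rfl⟩
    obtain ⟨W, hW⟩ : ∃ W : ℝ, W = 4 * A := ⟨_, rfl⟩
    have hEA : E ≤ A := by rw [hA]; exact zc_ge K hE l
    have hA1 : 1 ≤ A := hE.trans hEA
    have hW4 : 4 ≤ W := by linarith
    have hfin : zc K E (l + 1) = W ^ dd K (l + 3) := by
      rw [hW, hA]
      rfl
    have T : Tr K l gb (gp l) Fb (Fp l) (fun k => gb k < gp l k) A ε :=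
      (H.tr l h1 hl hM).mono hEA
    have iu : ∀ k, 1 ≤ k → k < l → |u k| ≤ A := fun k k1 k2 => by
      rw [hA]
      exact ((ih k k2 k1 (k2.trans hl)).1).trans (zc_mono K hE (by omega))
    have ib : ∀ k, 1 ≤ k → k < l → ¬ M k → |β k| ≤ A * ε / 2 ^ gb k := fun k k1 k2 k3 => by
      refine ((ih k k2 k1 (k2.trans hl)).2 k3).trans (div_le_div_of_nonneg_right
        (mul_le_mul_of_nonneg_right ?_ hε) (by positivity))
      rw [hA]
      exact zc_mono K hE (by omega)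
    have hAW : ∀ k, A ≤ W ^ dd K k := fun k => by
      calc A ≤ W := by linarith
        _ = W ^ 1 := (pow_one _).symm
        _ ≤ W ^ dd K k := pow_le_pow_right₀ (by linarith) (dd_pos _ _)
    have own0 : ∀ k < n, |ζ k| = 0 := fun k hk => by rw [h.ζ0 k hk, abs_zero]
    -- the two comparisons
    have f1 := T.fb2 hW (h.cb l h1 hl hM) (fun k k1 k2 _ => iu k k1 k2) (h.pt.mono hl.le)
      (fun k k1 k2 => iu k k1 k2)
      (fun k k1 k2 k3 => (ib k k1 k2 (H.thM l h1 hl hM k k1 k2 k3)).trans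
        (div_le_div_of_nonneg_right (mul_le_mul_of_nonneg_right (hAW k) hε) (by positivity)))
      (fun k _ _ _ => by rw [sub_self, abs_zero]; exact hε)
    have f2 := T.fb2 hW (h.cc l h1 hl hM) (fun k k1 k2 _ => (h.uoE k k1 (k2.trans hl)).trans hEA)
      (h.own.mono hl.le) (fun k k1 k2 => (h.yoE k k1 (k2.trans hl)).trans hEA)
      (fun k k1 k2 _ => by
        rw [own0 k (k2.trans hl)]
        positivity)
      (fun k k1 k2 _ => h.uy k k1 (k2.trans hl))
    have f3 := T.top hW (h.cb l h1 hl hM) (h.cc l h1 hl hM) (fun k k1 k2 _ => iu k k1 k2)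
      (fun k k1 k2 _ => (h.uoE k k1 (k2.trans hl)).trans hEA)
    have e0 : ζ l = eval ζ (Fb l) + yo l / 2 ^ gb l := h.own.2 l h1 hl
    rw [h.ζ0 l hl] at e0
    have e1 : β l = eval β (Fb l) + u l / 2 ^ gb l := h.pt.2 l h1 hl
    have hg : (0 : ℝ) < 2 ^ gb l := by positivity
    have e2 : 2 ^ gb l * β l = 2 ^ gb l * (eval (bl l) (Fp l l) - eval (cl l) (Fp l l)) -
        2 ^ gb l * (eval (bl l) (Fb l) - eval β (Fb l)) +
        2 ^ gb l * (eval (cl l) (Fb l) - eval ζ (Fb l)) + (uo l - yo l) +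
        (u l - uo l - 2 ^ gb l * ((eval (bl l) (Fp l l) - eval (bl l) (Fb l)) -
          (eval (cl l) (Fp l l) - eval (cl l) (Fb l)))) := by
      have e3 : 2 ^ gb l * β l = 2 ^ gb l * eval β (Fb l) + u l := by
        rw [e1]
        field_simp
      have e4 : 2 ^ gb l * eval ζ (Fb l) + yo l = 0 := by
        have : 2 ^ gb l * (eval ζ (Fb l) + yo l / 2 ^ gb l) = 0 := by
          rw [← e0, mul_zero]
        rw [mul_add, mul_div_cancel₀ _ hg.ne'] at this
        exact this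
      rw [e3]
      linear_combination e4
    have e5 : |2 ^ gb l * β l| ≤ (3 * W ^ dd K (l + 1) + 2) * ε := by
      rw [e2]
      have g1 : |2 ^ gb l * (eval (bl l) (Fp l l) - eval (cl l) (Fp l l))| ≤
          W ^ dd K (l + 1) * ε := by rwa [abs_mul, abs_of_pos hg]
      have g2 : |2 ^ gb l * (eval (bl l) (Fb l) - eval β (Fb l))| ≤
          W ^ dd K (l + 1) * ε := by rwa [abs_mul, abs_of_pos hg]
      have g3 : |2 ^ gb l * (eval (cl l) (Fb l) - eval ζ (Fb l))| ≤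
          W ^ dd K (l + 1) * ε := by rwa [abs_mul, abs_of_pos hg]
      have g4 := h.uy l h1 hl
      have g5 := h.rel l h1 hl hM
      rw [abs_le] at g1 g2 g3 g4 g5 ⊢
      constructor <;> nlinarith [g1.1, g1.2, g2.1, g2.2, g3.1, g3.2, g4.1, g4.2, g5.1, g5.2]
    have e6 : 3 * W ^ dd K (l + 1) + 2 ≤ W ^ dd K (l + 2) := by
      have := w3 (K := K) (l := l + 1) hW4
      have h2 : (4 : ℝ) ≤ W ^ dd K (l + 1) := by
        calc (4 : ℝ) ≤ W := hW4
          _ = W ^ 1 := (pow_one _).symm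
          _ ≤ W ^ dd K (l + 1) := pow_le_pow_right₀ (by linarith) (dd_pos _ _)
      linarith
    have e7 : |2 ^ gb l * β l| ≤ W ^ dd K (l + 2) * ε :=
      e5.trans (mul_le_mul_of_nonneg_right e6 hε)
    have e8 := w3 (K := K) (l := l + 2) hW4
    have hWp : 0 < W ^ dd K (l + 2) := by positivity
    refine ⟨?_, fun _ => ?_⟩
    · -- the coordinate
      have hz := T.b.ptl hA1 hW (h.pt.mono hl.le) (fun k k1 k2 => iu k k1 k2)
      have hB : (1 : ℝ) ≤ W ^ dd K l := one_le_pow₀ (by linarith)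
      have v1 := T.b.val (l := l) le_rfl hB (β := β) (fun k hk => (hz k hk).trans
        (div_le_div_of_nonneg_right (wpow hA1 hW hk.le) (by positivity)))
      have v2 : 2 ^ gb l * |eval β (Fb l)| ≤ W ^ dd K (l + 1) := by
        calc 2 ^ gb l * |eval β (Fb l)| ≤ 2 ^ gb l * ((W ^ dd K l) ^ K * A / 2 ^ gb l) :=
              mul_le_mul_of_nonneg_left v1 hg.le
          _ = (W ^ dd K l) ^ K * A := by field_simp
          _ ≤ W ^ dd K (l + 1) := by
              have := sz1 (K := K) (l := l) hA1 hW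
              linarith
      have v3 : u l = 2 ^ gb l * β l - 2 ^ gb l * eval β (Fb l) := by
        rw [e1]
        field_simp
        ring
      have v4 : |2 ^ gb l * eval β (Fb l)| ≤ W ^ dd K (l + 1) := by
        rwa [abs_mul, abs_of_pos hg]
      have v5 := abs_sub (2 ^ gb l * β l) (2 ^ gb l * eval β (Fb l))
      have v6 : W ^ dd K (l + 1) ≤ W ^ dd K (l + 2) := wpow hA1 hW (by omega)
      have v7 : W ^ dd K (l + 2) * ε ≤ W ^ dd K (l + 2) * 1 :=
        mul_le_mul_of_nonneg_left H.eps1 hWp.le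
      rw [hfin, v3]
      linarith
    · rw [hfin, le_div_iff₀ hg]
      rw [abs_mul, abs_of_pos hg] at e7
      have v7 : W ^ dd K (l + 2) * ε ≤ W ^ dd K (l + 3) * ε :=
        mul_le_mul_of_nonneg_right (by linarith) hε
      linarith

/-- **The own leaf of the target over the eliminated coordinates**, two points. -/
theorem El.targ {n : ℕ} {gp : ℕ → ℕ → ℕ} {Fp : ℕ → ℕ → PN} {M : ℕ → Prop}
    {u β uo yo ζ u₂ β₂ : ℕ → ℝ} {bl cl bl₂ cl₂ : ℕ → ℕ → ℝ} {gA : ℕ → ℕ} {FA : ℕ → PN}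
    {βA βA₂ : ℕ → ℝ} (H : El K n gb Fb gp Fp M E ε)
    (hA : Tr K n gb gA Fb FA (fun k => gb k < gA k) E ε)
    (hAM : ∀ k, 1 ≤ k → k < n → gb k < gA k → ¬ M k)
    (h : Elp n gb Fb gp Fp M E ε u β uo yo ζ bl cl)
    (h₂ : Elp n gb Fb gp Fp M E ε u₂ β₂ uo yo ζ bl₂ cl₂)
    (c : Cp n gb Fb FA (fun k => gb k < gA k) u βA)
    (c₂ : Cp n gb Fb FA (fun k => gb k < gA k) u₂ βA₂) :
    |(2 ^ gb n * (eval βA (FA n) - eval βA (Fb n)) + 2 ^ gb n * eval β (Fb n)) -
      (2 ^ gb n * (eval βA₂ (FA n) - eval βA₂ (Fb n)) + 2 ^ gb n * eval β₂ (Fb n))| ≤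
      zc K E (n + 1) * ε := by
  have hE := H.e1
  have hε := H.eps
  obtain ⟨A, hA'⟩ : ∃ A : ℝ, A = zc K E n := ⟨_, rfl⟩
  obtain ⟨W, hW⟩ : ∃ W : ℝ, W = 4 * A := ⟨_, rfl⟩
  have hEA : E ≤ A := by rw [hA']; exact zc_ge K hE n
  have hA1 : 1 ≤ A := hE.trans hEA
  have hW4 : 4 ≤ W := by linarith
  have hfin : zc K E (n + 1) = W ^ dd K (n + 3) := by
    rw [hW, hA']
    rfl
  have T : Tr K n gb gA Fb FA (fun k => gb k < gA k) A ε := hA.mono hEA
  have hAW : ∀ k, A ≤ W ^ dd K k := fun k => by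
    calc A ≤ W := by linarith
      _ = W ^ 1 := (pow_one _).symm
      _ ≤ W ^ dd K k := pow_le_pow_right₀ (by linarith) (dd_pos _ _)
  have one : ∀ {u β : ℕ → ℝ} {bl cl : ℕ → ℕ → ℝ} {βA : ℕ → ℝ},
      Elp n gb Fb gp Fp M E ε u β uo yo ζ bl cl →
      Cp n gb Fb FA (fun k => gb k < gA k) u βA →
      (∀ k, 1 ≤ k → k < n → |u k| ≤ A) ∧
      |2 ^ gb n * (eval βA (Fb n) - eval β (Fb n))| ≤ W ^ dd K (n + 1) * ε := by
    intro u β bl cl βA h c
    have s := H.small h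
    have iu : ∀ k, 1 ≤ k → k < n → |u k| ≤ A := fun k k1 k2 => by
      rw [hA']
      exact ((s k k1 k2).1).trans (zc_mono K hE (by omega))
    have ib : ∀ k, 1 ≤ k → k < n → ¬ M k → |β k| ≤ A * ε / 2 ^ gb k := fun k k1 k2 k3 => by
      refine ((s k k1 k2).2 k3).trans (div_le_div_of_nonneg_right
        (mul_le_mul_of_nonneg_right ?_ hε) (by positivity))
      rw [hA']
      exact zc_mono K hE (by omega)
    refine ⟨iu, ?_⟩
    have f1 := T.fb2 hW c (fun k k1 k2 _ => iu k k1 k2) h.pt (fun k k1 k2 => iu k k1 k2)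
      (fun k k1 k2 k3 => (ib k k1 k2 (hAM k k1 k2 k3)).trans
        (div_le_div_of_nonneg_right (mul_le_mul_of_nonneg_right (hAW k) hε) (by positivity)))
      (fun k _ _ _ => by rw [sub_self, abs_zero]; exact hε)
    rwa [abs_mul, abs_of_pos (by positivity : (0 : ℝ) < 2 ^ gb n)]
  obtain ⟨i1, f1⟩ := one h c
  obtain ⟨i2, f2⟩ := one h₂ c₂
  have f3 := T.top hW c c₂ (fun k k1 k2 _ => i1 k k1 k2) (fun k k1 k2 _ => i2 k k1 k2)
  have f4 : |2 ^ gb n * (eval βA (FA n) - eval βA₂ (FA n))| ≤ W ^ dd K (n + 1) * ε := by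
    rwa [abs_mul, abs_of_pos (by positivity : (0 : ℝ) < 2 ^ gb n)]
  have e : (2 ^ gb n * (eval βA (FA n) - eval βA (Fb n)) + 2 ^ gb n * eval β (Fb n)) -
      (2 ^ gb n * (eval βA₂ (FA n) - eval βA₂ (Fb n)) + 2 ^ gb n * eval β₂ (Fb n)) =
      2 ^ gb n * (eval βA (FA n) - eval βA₂ (FA n)) -
        2 ^ gb n * (eval βA (Fb n) - eval β (Fb n)) +
        2 ^ gb n * (eval βA₂ (Fb n) - eval β₂ (Fb n)) := by ring
  rw [e, hfin]
  have h3 : |2 ^ gb n * (eval βA (FA n) - eval βA₂ (FA n)) -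
        2 ^ gb n * (eval βA (Fb n) - eval β (Fb n)) +
        2 ^ gb n * (eval βA₂ (Fb n) - eval β₂ (Fb n))| ≤ 3 * W ^ dd K (n + 1) * ε := by
    rw [abs_le] at f1 f2 f4 ⊢
    constructor <;> nlinarith [f1.1, f1.2, f2.1, f2.2, f4.1, f4.2]
  refine h3.trans (mul_le_mul_of_nonneg_right ?_ hε)
  have a1 := w3 (K := K) (l := n + 1) hW4
  have a2 := w3 (K := K) (l := n + 2) hW4
  have a3 : 0 < W ^ dd K (n + 1) := by positivity
  linarith

/-- The eliminated coordinates of the own point. -/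
theorem El.own {n : ℕ} {gp : ℕ → ℕ → ℕ} {Fp : ℕ → ℕ → PN} {M : ℕ → Prop}
    {u β uo yo ζ : ℕ → ℝ} {bl cl : ℕ → ℕ → ℝ} (H : El K n gb Fb gp Fp M E ε)
    (h : Elp n gb Fb gp Fp M E ε u β uo yo ζ bl cl)
    (hu : ∀ l, 1 ≤ l → l < n → M l → |u l - yo l| ≤ ε) :
    ∀ l, 1 ≤ l → l < n → |u l - yo l| ≤ zc K E (n + 1) * ε := by
  have hE := H.e1
  have hε := H.eps
  obtain ⟨A, hA'⟩ : ∃ A : ℝ, A = zc K E n := ⟨_, rfl⟩
  obtain ⟨W, hW⟩ : ∃ W : ℝ, W = 4 * A := ⟨_, rfl⟩
  have hEA : E ≤ A := by rw [hA']; exact zc_ge K hE n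
  have hA1 : 1 ≤ A := hE.trans hEA
  have hW4 : 4 ≤ W := by linarith
  have hfin : zc K E (n + 1) = W ^ dd K (n + 3) := by
    rw [hW, hA']
    rfl
  have hAW : ∀ k, A ≤ W ^ dd K k := fun k => by
    calc A ≤ W := by linarith
      _ = W ^ 1 := (pow_one _).symm
      _ ≤ W ^ dd K k := pow_le_pow_right₀ (by linarith) (dd_pos _ _)
  have s := H.small h
  have iu : ∀ k, 1 ≤ k → k < n → |u k| ≤ A := fun k k1 k2 => by
    rw [hA']
    exact ((s k k1 k2).1).trans (zc_mono K hE (by omega))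
  have ib : ∀ k, 1 ≤ k → k < n → ¬ M k → |β k| ≤ A * ε / 2 ^ gb k := fun k k1 k2 k3 => by
    refine ((s k k1 k2).2 k3).trans (div_le_div_of_nonneg_right
      (mul_le_mul_of_nonneg_right ?_ hε) (by positivity))
    rw [hA']
    exact zc_mono K hE (by omega)
  have hb := H.b.mono le_rfl hEA
  have hz := hb.ptl hA1 hW h.pt iu
  have hz0 := hb.ptl hA1 hW h.own (fun k k1 k2 => (h.yoE k k1 k2).trans hEA)
  -- the variation of the labels
  have lp : ∀ l < n, (∀ k < l, |β k - ζ k| ≤ W ^ dd K (k + 1) * ε / 2 ^ gb k) →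
      2 ^ gb l * |eval β (Fb l) - eval ζ (Fb l)| + 2 * ε ≤ W ^ dd K (l + 1) * ε := by
    intro l hl hk
    have hB : (1 : ℝ) ≤ W ^ dd K l := one_le_pow₀ (by linarith)
    have e1 := hb.lip (l := l) hl.le hB (δ := W ^ dd K l * ε) (by positivity)
      (β := β) (β' := ζ)
      (fun k hk => (hz k (hk.trans hl)).trans (div_le_div_of_nonneg_right
        (wpow hA1 hW hk.le) (by positivity)))
      (fun k hk => (hz0 k (hk.trans hl)).trans (div_le_div_of_nonneg_right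
        (wpow hA1 hW hk.le) (by positivity)))
      (fun k hk' => (hk k hk').trans (div_le_div_of_nonneg_right
        (mul_le_mul_of_nonneg_right (wpow hA1 hW (by omega)) hε) (by positivity)))
    calc 2 ^ gb l * |eval β (Fb l) - eval ζ (Fb l)| + 2 * ε
        ≤ 2 ^ gb l * (K * (W ^ dd K l) ^ K * A * (W ^ dd K l * ε) / 2 ^ gb l) + 2 * ε :=
          add_le_add_left (mul_le_mul_of_nonneg_left e1 (by positivity)) _
      _ = (K * (W ^ dd K l) ^ K * A * W ^ dd K l + 2) * ε := by field_simp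
      _ ≤ W ^ dd K (l + 1) * ε :=
          mul_le_mul_of_nonneg_right (sz2 (K := K) (l := l) hA1 hW) hε
  have near : ∀ l < n, |β l - ζ l| ≤ W ^ dd K (l + 1) * ε / 2 ^ gb l := by
    intro l
    induction l using Nat.strong_induction_on with
    | _ l ih =>
      intro hl
      rcases Nat.eq_zero_or_pos l with h0 | h0
      · subst h0
        rw [h.pt.1, h.own.1, sub_self, abs_zero]
        positivity
      · by_cases hM : M l
        · have e1 := lp l hl fun k hk => ih k hk (hk.trans hl)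
          have e2 := hu l h0 hl hM
          have hg : (0 : ℝ) < 2 ^ gb l := by positivity
          rw [le_div_iff₀ hg]
          have e3 : (β l - ζ l) * 2 ^ gb l = 2 ^ gb l * (eval β (Fb l) - eval ζ (Fb l)) +
              (u l - yo l) := by
            rw [h.pt.2 l h0 hl, h.own.2 l h0 hl]
            field_simp
            ring
          have e4 : |β l - ζ l| * 2 ^ gb l = |(β l - ζ l) * 2 ^ gb l| := by
            rw [abs_mul, abs_of_pos hg]
          rw [e4, e3]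
          refine (abs_add_le _ _).trans ?_
          rw [abs_mul, abs_of_pos hg]
          linarith
        · rw [h.ζ0 l hl, sub_zero]
          refine (ib l h0 hl hM).trans (div_le_div_of_nonneg_right ?_ (by positivity))
          exact mul_le_mul_of_nonneg_right (hAW _) hε
  intro l h1 hl
  have hg : (0 : ℝ) < 2 ^ gb l := by positivity
  have e1 := lp l hl fun k hk => near k (hk.trans hl)
  have e2 := near l hl
  rw [le_div_iff₀ hg] at e2
  have e3 : u l - yo l = (β l - ζ l) * 2 ^ gb l - 2 ^ gb l * (eval β (Fb l) - eval ζ (Fb l)) := by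
    rw [h.pt.2 l h1 hl, h.own.2 l h1 hl]
    field_simp
    ring
  have e4 : |(β l - ζ l) * 2 ^ gb l| ≤ W ^ dd K (l + 1) * ε := by
    rw [abs_mul, abs_of_pos hg]
    exact e2
  have e5 : |2 ^ gb l * (eval β (Fb l) - eval ζ (Fb l))| ≤ W ^ dd K (l + 1) * ε := by
    rw [abs_mul, abs_of_pos hg]
    linarith
  rw [e3, hfin]
  refine (abs_sub _ _).trans ((add_le_add e4 e5).trans ?_)
  have a1 := w3 (K := K) (l := l + 1) hW4
  have a2 : W ^ dd K (l + 2) ≤ W ^ dd K (n + 3) := wpow hA1 hW (by omega)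
  have a3 : 0 < W ^ dd K (l + 1) := by positivity
  rw [← add_mul]
  exact mul_le_mul_of_nonneg_right (by linarith) hε

end Pool.FRM
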