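import Mathlib

/-!
# A function on a grid with small steps

The steps are bounded by a weight `exp (-(p i + q j) y)`; then the distance to the value at the
corner where `p i + q j` is maximal is bounded by the weight.
-/

set_option autoImplicit false

namespace Pool.FRM

open Finset Real

/-- The corner. -/
noncomputable def crn (M : ℕ) (p : ℝ) : ℕ := if 0 ≤ p then M else 0

theorem crn_le (M : ℕ) (p : ℝ) : crn M p ≤ M := by
  unfold crn
  split_ifs
  · exact le_rfl
  · exact Nat.zero_le _

theorem crn_ge {M i : ℕ} (p : ℝ) (hi : i ≤ M) : p * i ≤ p * crn M p := by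
  unfold crn
  split_ifs with h
  · exact mul_le_mul_of_nonneg_left (by exact_mod_cast hi) h
  · push Not at h
    rw [Nat.cast_zero, mul_zero]
    exact mul_nonpos_of_nonpos_of_nonneg h.le (Nat.cast_nonneg _)

theorem line (f : ℕ → ℝ) (N : ℕ) (A p c : ℝ) (hA : 0 ≤ A)
    (h : ∀ i < N, |f (i + 1) - f i| ≤ A * exp (c - p * i)) :
    ∀ i ≤ N, |f i - f (crn N p)| ≤ N * A * exp (c - p * i) := by
  intro i hi
  unfold crn
  split_ifs with hp
  · have h1 : ∀ k, i + k ≤ N → |f i - f (i + k)| ≤ k * (A * exp (c - p * i)) := by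
      intro k
      induction k with
      | zero => intro _; simp
      | succ k ih =>
        intro hk
        have e1 := ih (by omega)
        have e2 := h (i + k) (by omega)
        have e3 : exp (c - p * (i + k : ℕ)) ≤ exp (c - p * i) := by
          refine exp_le_exp.2 ?_
          push_cast
          have : 0 ≤ p * k := mul_nonneg hp (Nat.cast_nonneg _)
          linarith
        have e4 : |f i - f (i + (k + 1))| ≤ |f i - f (i + k)| + |f (i + k + 1) - f (i + k)| := by
          rw [show f i - f (i + (k + 1)) = (f i - f (i + k)) - (f (i + k + 1) - f (i + k)) by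
            rw [show i + (k + 1) = i + k + 1 by omega]; ring]
          exact abs_sub _ _
        have e5 := mul_le_mul_of_nonneg_left e3 hA
        push_cast
        linarith
    have e1 := h1 (N - i) (by omega)
    rw [show i + (N - i) = N by omega] at e1
    refine e1.trans ?_
    rw [mul_assoc]
    refine mul_le_mul_of_nonneg_right ?_ (by positivity)
    exact_mod_cast Nat.sub_le N i
  · push Not at hp
    have h1 : ∀ k ≤ i, |f k - f 0| ≤ k * (A * exp (c - p * i)) := by
      intro k
      induction k with
      | zero => intro _; simp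
      | succ k ih =>
        intro hk
        have e1 := ih (by omega)
        have e2 := h k (by omega)
        have e3 : exp (c - p * k) ≤ exp (c - p * i) := by
          refine exp_le_exp.2 ?_
          have : (k : ℝ) ≤ i := by exact_mod_cast (by omega : k ≤ i)
          nlinarith
        have e4 : |f (k + 1) - f 0| ≤ |f (k + 1) - f k| + |f k - f 0| := abs_sub_le _ _ _
        have e5 := mul_le_mul_of_nonneg_left e3 hA
        push_cast
        linarith
    refine (h1 i le_rfl).trans ?_
    rw [mul_assoc]
    refine mul_le_mul_of_nonneg_right ?_ (by positivity)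
    exact_mod_cast hi

/-- **The corner.** -/
theorem corner (M : ℕ) (hM : 1 ≤ M) (f : ℕ → ℕ → ℝ) (A p q y s : ℝ) (hA : 0 ≤ A) (hy : 0 < y)
    (hp : |p| * y ≤ s) (hq : |q| * y ≤ s)
    (h1 : ∀ i < M, ∀ j ≤ M, |f (i + 1) j - f i j| ≤ A * exp (-(p * i + q * j) * y))
    (h2 : ∀ i < M, ∀ j < M, |f (i + 1) (j + 1) - f i j| ≤ A * exp (-(p * i + q * j) * y)) :
    ∀ i ≤ M, ∀ j ≤ M, |f i j - f (crn M p) (crn M q)| ≤
      5 * M * A * exp (2 * s) * exp (-(p * i + q * j) * y) := by
  have hs : 0 ≤ s := (by positivity : 0 ≤ |p| * y).trans hp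
  have hes : 1 ≤ exp s := one_le_exp hs
  have he2 : exp (2 * s) = exp s * exp s := by rw [← exp_add]; congr 1; ring
  -- neighbours
  have w1 : ∀ i j : ℕ, exp (-(p * i + q * (j + 1 : ℕ)) * y) ≤
      exp s * exp (-(p * i + q * j) * y) := by
    intro i j
    rw [← exp_add]
    refine exp_le_exp.2 ?_
    push_cast
    have : -(q * y) ≤ |q| * y := by
      have := neg_abs_le q
      nlinarith
    nlinarith
  have w2 : ∀ i j : ℕ, exp (-(p * i + q * j) * y) ≤
      exp s * exp (-(p * (i + 1 : ℕ) + q * j) * y) := by
    intro i j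
    rw [← exp_add]
    refine exp_le_exp.2 ?_
    push_cast
    have : p * y ≤ |p| * y := by
      have := le_abs_self p
      nlinarith
    nlinarith
  -- vertical steps
  have v0 : ∀ i < M, ∀ j < M, |f i (j + 1) - f i j| ≤
      2 * A * exp s * exp (-(p * i + q * j) * y) := by
    intro i hi j hj
    have e1 := h1 i hi (j + 1) (by omega)
    have e2 := h2 i hi j hj
    have e3 : |f i (j + 1) - f i j| ≤ |f (i + 1) (j + 1) - f i j| +
        |f (i + 1) (j + 1) - f i (j + 1)| := by
      rw [show f i (j + 1) - f i j = (f (i + 1) (j + 1) - f i j) -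
        (f (i + 1) (j + 1) - f i (j + 1)) by ring]
      exact abs_sub _ _
    have e4 := mul_le_mul_of_nonneg_left (w1 i j) hA
    have e5 : A * exp (-(p * i + q * j) * y) ≤ A * (exp s * exp (-(p * i + q * j) * y)) := by
      refine mul_le_mul_of_nonneg_left ?_ hA
      have := exp_pos (-(p * i + q * j) * y)
      nlinarith
    nlinarith
  have v1 : ∀ i ≤ M, ∀ j < M, |f i (j + 1) - f i j| ≤
      4 * A * exp (2 * s) * exp (-(p * i + q * j) * y) := by
    intro i hi j hj
    rcases Nat.lt_or_ge i M with hi' | hi'
    · refine (v0 i hi' j hj).trans ?_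
      refine mul_le_mul_of_nonneg_right ?_ (exp_pos _).le
      rw [he2]
      have : A * exp s ≤ A * (exp s * exp s) :=
        mul_le_mul_of_nonneg_left (by nlinarith) hA
      have h0 : 0 ≤ A * exp s := by positivity
      nlinarith
    · obtain ⟨k, rfl⟩ : ∃ k, i = k + 1 := ⟨i - 1, by omega⟩
      have e1 := h1 k (by omega) (j + 1) (by omega)
      have e2 := v0 k (by omega) j hj
      have e3 := h1 k (by omega) j (by omega)
      have e4 : |f (k + 1) (j + 1) - f (k + 1) j| ≤ |f (k + 1) (j + 1) - f k (j + 1)| +
          |f k (j + 1) - f k j| + |f (k + 1) j - f k j| := by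
        rw [show f (k + 1) (j + 1) - f (k + 1) j = ((f (k + 1) (j + 1) - f k (j + 1)) +
          (f k (j + 1) - f k j)) - (f (k + 1) j - f k j) by ring]
        exact (abs_sub _ _).trans (add_le_add_left (abs_add_le _ _) _)
      obtain ⟨u, hu⟩ : ∃ u, u = exp (-(p * (k : ℕ) + q * j) * y) := ⟨_, rfl⟩
      obtain ⟨v, hv⟩ : ∃ v, v = exp (-(p * ((k + 1 : ℕ) : ℝ) + q * j) * y) := ⟨_, rfl⟩
      have hu0 : 0 < u := by rw [hu]; exact exp_pos _
      have huv : u ≤ exp s * v := by rw [hu, hv]; exact w2 k j
      have e5 := w1 k j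
      rw [← hu] at e5 e2 e3
      rw [← hv]
      have e6 : A * exp (-(p * (k : ℕ) + q * (j + 1 : ℕ)) * y) ≤ A * (exp s * u) :=
        mul_le_mul_of_nonneg_left e5 hA
      have e7 : A * u ≤ A * (exp s * u) := mul_le_mul_of_nonneg_left (by nlinarith) hA
      have e8 : 4 * (A * (exp s * u)) ≤ 4 * A * exp (2 * s) * v := by
        rw [he2]
        have : A * exp s * u ≤ A * exp s * (exp s * v) :=
          mul_le_mul_of_nonneg_left huv (by positivity)
        nlinarith
      refine le_trans ?_ e8
      refine e4.trans ?_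
      push_cast at e1 e6
      nlinarith
  intro i hi j hj
  have hM1 : (1 : ℝ) ≤ M := by exact_mod_cast hM
  -- horizontal
  have a1 := line (fun i => f i j) M A (p * y) (-(q * j) * y) hA (fun k hk => by
    have := h1 k hk j hj
    rwa [show -(q * (j : ℝ)) * y - p * y * k = -(p * k + q * j) * y by ring]) i hi
  have a2 := line (fun j => f (crn M p) j) M (4 * A * exp (2 * s)) (q * y)
    (-(p * crn M p) * y) (by positivity) (fun k hk => by
    have := v1 (crn M p) (crn_le M p) k hk
    rwa [show -(p * (crn M p : ℝ)) * y - q * y * k = -(p * crn M p + q * k) * y by ring]) j hj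
  have cc : ∀ r : ℝ, crn M (r * y) = crn M r := by
    intro r
    unfold crn
    by_cases h : 0 ≤ r
    · rw [if_pos h, if_pos (mul_nonneg h hy.le)]
    · rw [if_neg h, if_neg (by
        push Not at h ⊢
        exact mul_neg_of_neg_of_pos h hy)]
  have b1 : |f i j - f (crn M p) j| ≤ M * A * exp (-(p * i + q * j) * y) := by
    rw [cc] at a1
    refine a1.trans (le_of_eq ?_)
    congr 2
    ring
  have b2 : |f (crn M p) j - f (crn M p) (crn M q)| ≤
      M * (4 * A * exp (2 * s)) * exp (-(p * i + q * j) * y) := by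
    rw [cc] at a2
    refine a2.trans (mul_le_mul_of_nonneg_left (exp_le_exp.2 ?_) (by positivity))
    have := mul_le_mul_of_nonneg_right (crn_ge (M := M) p hi) hy.le
    nlinarith
  have b3 := abs_sub_le (f i j) (f (crn M p) j) (f (crn M p) (crn M q))
  have b4 : M * A * exp (-(p * i + q * j) * y) ≤
      M * A * exp (2 * s) * exp (-(p * i + q * j) * y) := by
    refine mul_le_mul_of_nonneg_right ?_ (exp_pos _).le
    have : 1 ≤ exp (2 * s) := one_le_exp (by linarith)
    have h0 : 0 ≤ M * A := by positivity
    nlinarith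
  nlinarith

end Pool.FRM
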