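import Pool.Agent.H41.FRM.Chr
import Pool.Agent.H41.FRM.Num

/-!
# The frame lemma

A grid of triangular systems `Ψ i j` whose levels are linear in `(i, j)` up to `C₁ z`, such that
adjacent systems agree on the natural box up to `exp (C₁ z)`. Then there is one triangular system
`P` through the own point such that all the systems of the grid are near to `P`: the coefficients
of `Ψ i j l - P l` in the chart of `P` with the sides `2 ^ (-g i j)` are bounded by
`exp (C z) / 2 ^ g i j l`.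
-/

set_option autoImplicit false

namespace Pool.FRM

open Finset Real MvPolynomial
open Pool.STAT Pool.MIC.Frm
open Pool.SYS35 (nrm_nonneg')

/-- A grid of systems. -/
structure Grd (n K M z : ℕ) (lam gam : ℕ → ℝ) (C₁ : ℝ) (Ψ : ℕ → ℕ → ℕ → PN)
    (g : ℕ → ℕ → ℕ → ℕ) (x : ℕ → ℝ) : Prop where
  tri : ∀ i j, TriN (Ψ i j)
  deg : ∀ i j l, (Ψ i j l).totalDegree ≤ K
  hom : ∀ i ≤ M, ∀ j ≤ M, ∀ l ≤ n,
    |(g i j l : ℝ) - g 0 0 l - (lam l * i + gam l * j) * z| ≤ C₁ * z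
  pos : ∀ i ≤ M, ∀ j ≤ M, ∀ l ≤ n, |x l - eval x (Ψ i j l)| ≤ 1 / 2 ^ g i j l
  adj₁ : ∀ i < M, ∀ j ≤ M, ∀ l ≤ n, ∀ b : ℕ → ℝ,
    (∀ k < l, |nat (g (i + 1) j) (Ψ (i + 1) j) b k| ≤ 1) →
      |eval b (Ψ (i + 1) j l) - eval b (Ψ i j l)| ≤ exp (C₁ * z) / 2 ^ g (i + 1) j l
  adj₂ : ∀ i < M, ∀ j < M, ∀ l ≤ n, ∀ b : ℕ → ℝ,
    (∀ k < l, |nat (g (i + 1) (j + 1)) (Ψ (i + 1) (j + 1)) b k| ≤ 1) →
      |eval b (Ψ (i + 1) (j + 1) l) - eval b (Ψ i j l)| ≤
        exp (C₁ * z) / 2 ^ g (i + 1) (j + 1) l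

/-- The slope of a weight. -/
noncomputable def slp (lam : ℕ → ℝ) (m : ℕ) (α : ℕ →₀ ℕ) : ℝ :=
  lam m - ∑ k ∈ α.support, α k * lam k

theorem slp_le {lam : ℕ → ℝ} {n m K : ℕ} {L : ℝ} (hL : ∀ k ≤ n, |lam k| ≤ L) (hm : m ≤ n)
    {α : ℕ →₀ ℕ} (hα : α ∈ exs m K) : |slp lam m α| ≤ (m * K + 1) * L := by
  unfold exs at hα
  rw [Finset.mem_finsupp_iff] at hα
  have hL0 : 0 ≤ L := (abs_nonneg _).trans (hL 0 (Nat.zero_le _))
  unfold slp
  refine (abs_sub _ _).trans ?_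
  have h1 : |∑ k ∈ α.support, (α k : ℝ) * lam k| ≤ m * K * L := by
    refine (Finset.abs_sum_le_sum_abs _ _).trans ?_
    calc ∑ k ∈ α.support, |(α k : ℝ) * lam k| ≤ ∑ _k ∈ α.support, (K : ℝ) * L := by
          refine Finset.sum_le_sum fun k hk => ?_
          have hk' := mem_range.1 (hα.1 hk)
          rw [abs_mul, Nat.abs_cast]
          refine mul_le_mul ?_ (hL k (by omega)) (abs_nonneg _) (Nat.cast_nonneg _)
          have := mem_range.1 (hα.2 k (hα.1 hk))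
          exact_mod_cast Nat.lt_succ_iff.1 this
      _ = α.support.card * (K * L) := by rw [Finset.sum_const, nsmul_eq_mul]
      _ ≤ m * (K * L) := by
          refine mul_le_mul_of_nonneg_right ?_ (by positivity)
          have := Finset.card_le_card hα.1
          rw [card_range] at this
          exact_mod_cast this
      _ = m * K * L := by ring
  have h2 := hL m hm
  linarith

theorem wt_hom {n K M z : ℕ} {lam gam : ℕ → ℝ} {C₁ : ℝ} {Ψ : ℕ → ℕ → ℕ → PN}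
    {g : ℕ → ℕ → ℕ → ℕ} {x : ℕ → ℝ} (hG : Grd n K M z lam gam C₁ Ψ g x) (hC : 0 ≤ C₁) {m K' : ℕ}
    (hm : m ≤ n) {α : ℕ →₀ ℕ} (hα : α ∈ exs m K') {i j : ℕ} (hi : i ≤ M) (hj : j ≤ M) :
    |((Finsupp.weight (g i j) α : ℕ) : ℝ) - g i j m -
      ((Finsupp.weight (g 0 0) α : ℕ) : ℝ) + g 0 0 m +
      (slp lam m α * i + slp gam m α * j) * z| ≤ (m * K' + 1) * (C₁ * z) := by
  unfold exs at hα
  rw [Finset.mem_finsupp_iff] at hα
  have hw : ∀ d : ℕ → ℕ, ((Finsupp.weight d α : ℕ) : ℝ) = ∑ k ∈ α.support, (α k : ℝ) * d k := by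
    intro d
    rw [Finsupp.weight_apply, Finsupp.sum]
    push_cast
    exact Finset.sum_congr rfl fun k _ => by rw [smul_eq_mul, Nat.cast_mul]
  rw [hw, hw]
  unfold slp
  have e1 : (∑ k ∈ α.support, (α k : ℝ) * g i j k) - g i j m -
      (∑ k ∈ α.support, (α k : ℝ) * g 0 0 k) + g 0 0 m +
      ((lam m - ∑ k ∈ α.support, α k * lam k) * i +
        (gam m - ∑ k ∈ α.support, α k * gam k) * j) * z =
      (∑ k ∈ α.support, (α k : ℝ) * ((g i j k : ℝ) - g 0 0 k - (lam k * i + gam k * j) * z)) -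
        ((g i j m : ℝ) - g 0 0 m - (lam m * i + gam m * j) * z) := by
    have e2 : (∑ k ∈ α.support, (α k : ℝ) * ((g i j k : ℝ) - g 0 0 k -
        (lam k * i + gam k * j) * z)) = (∑ k ∈ α.support, (α k : ℝ) * g i j k) -
        (∑ k ∈ α.support, (α k : ℝ) * g 0 0 k) - ((∑ k ∈ α.support, α k * lam k) * i +
          (∑ k ∈ α.support, α k * gam k) * j) * z := by
      rw [Finset.sum_mul, Finset.sum_mul, ← Finset.sum_add_distrib, Finset.sum_mul,
        ← Finset.sum_sub_distrib, ← Finset.sum_sub_distrib]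
      refine Finset.sum_congr rfl fun k _ => ?_
      ring
    rw [e2]
    ring
  rw [e1]
  refine (abs_sub _ _).trans ?_
  have h1 : |∑ k ∈ α.support, (α k : ℝ) * ((g i j k : ℝ) - g 0 0 k -
      (lam k * i + gam k * j) * z)| ≤ m * K' * (C₁ * z) := by
    have hL0 : 0 ≤ C₁ * z := mul_nonneg hC (Nat.cast_nonneg _)
    refine (Finset.abs_sum_le_sum_abs _ _).trans ?_
    calc ∑ k ∈ α.support, |(α k : ℝ) * ((g i j k : ℝ) - g 0 0 k - (lam k * i + gam k * j) * z)|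
        ≤ ∑ _k ∈ α.support, (K' : ℝ) * (C₁ * z) := by
          refine Finset.sum_le_sum fun k hk => ?_
          have hk' := mem_range.1 (hα.1 hk)
          rw [abs_mul, Nat.abs_cast]
          refine mul_le_mul ?_ (hG.hom i hi j hj k (by omega)) (abs_nonneg _) (Nat.cast_nonneg _)
          have := mem_range.1 (hα.2 k (hα.1 hk))
          exact_mod_cast Nat.lt_succ_iff.1 this
      _ = α.support.card * (K' * (C₁ * z)) := by rw [Finset.sum_const, nsmul_eq_mul]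
      _ ≤ m * (K' * (C₁ * z)) := by
          refine mul_le_mul_of_nonneg_right ?_ (by positivity)
          have := Finset.card_le_card hα.1
          rw [card_range] at this
          exact_mod_cast this
      _ = m * K' * (C₁ * z) := by ring
  have h2 := hG.hom i hi j hj m hm
  linarith

theorem two_pow_exp (k : ℕ) : (2 : ℝ) ^ k = exp (k * Real.log 2) := by
  rw [exp_nat_mul, exp_log (by norm_num)]

/-- The weight of a coefficient. -/
theorem wt_two {n K M z : ℕ} {lam gam : ℕ → ℝ} {C₁ : ℝ} {Ψ : ℕ → ℕ → ℕ → PN}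
    {g : ℕ → ℕ → ℕ → ℕ} {x : ℕ → ℝ} (hG : Grd n K M z lam gam C₁ Ψ g x) (hC : 0 ≤ C₁) {m K' : ℕ}
    (hm : m ≤ n) {α : ℕ →₀ ℕ} (hα : α ∈ exs m K') {i j : ℕ} (hi : i ≤ M) (hj : j ≤ M) :
    (2 : ℝ) ^ Finsupp.weight (g i j) α / 2 ^ g i j m ≤
      2 ^ Finsupp.weight (g 0 0) α / 2 ^ g 0 0 m * exp ((m * K' + 1) * (C₁ * z)) *
        exp (-(slp lam m α * i + slp gam m α * j) * (z * Real.log 2)) ∧
    2 ^ Finsupp.weight (g 0 0) α / 2 ^ g 0 0 m *
        exp (-(slp lam m α * i + slp gam m α * j) * (z * Real.log 2)) ≤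
      (2 : ℝ) ^ Finsupp.weight (g i j) α / 2 ^ g i j m * exp ((m * K' + 1) * (C₁ * z)) := by
  have h := wt_hom hG hC hm hα hi hj
  rw [abs_le] at h
  have hl2 : 0 < Real.log 2 := Real.log_pos (by norm_num)
  have hl2' : Real.log 2 ≤ 1 := by linarith [Real.log_two_lt_d9]
  have hE : 0 ≤ ((m * K' + 1) * (C₁ * z) : ℝ) := by positivity
  have hE2 : ((m * K' + 1) * (C₁ * z) : ℝ) * Real.log 2 ≤ (m * K' + 1) * (C₁ * z) :=
    mul_le_of_le_one_right hE hl2'
  obtain ⟨h1, h2⟩ := h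
  have h3 := mul_le_mul_of_nonneg_right h1 hl2.le
  have h4 := mul_le_mul_of_nonneg_right h2 hl2.le
  rw [two_pow_exp, two_pow_exp, two_pow_exp, two_pow_exp, ← exp_sub, ← exp_sub, ← exp_add,
    ← exp_add, ← exp_add, ← exp_add]
  constructor
  · refine exp_le_exp.2 ?_
    nlinarith
  · refine exp_le_exp.2 ?_
    nlinarith

/-- The polynomial of the frame: for every exponent the coefficient at the best corner. -/
noncomputable def rfr (M m K' : ℕ) (lam gam : ℕ → ℝ) (P : ℕ → PN) (Ψ : ℕ → ℕ → ℕ → PN)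
    (x : ℕ → ℝ) : PN :=
  ∑ α ∈ exs m K', monomial α (if α = 0 then x m else
    coeff α (chr P (Ψ (crn M (slp lam m α)) (crn M (slp gam m α)) m)))

theorem coeff_rfr (M m K' : ℕ) (lam gam : ℕ → ℝ) (P : ℕ → PN) (Ψ : ℕ → ℕ → ℕ → PN) (x : ℕ → ℝ)
    {α : ℕ →₀ ℕ} (hα : α ∈ exs m K') : coeff α (rfr M m K' lam gam P Ψ x) =
      if α = 0 then x m else
        coeff α (chr P (Ψ (crn M (slp lam m α)) (crn M (slp gam m α)) m)) := by
  classical
  unfold rfr
  rw [coeff_sum, Finset.sum_eq_single α]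
  · rw [coeff_monomial, if_pos rfl]
  · intro β _ hβ
    rw [coeff_monomial, if_neg hβ]
  · intro h
    exact absurd hα h

theorem supp_rfr (M m K' : ℕ) (lam gam : ℕ → ℝ) (P : ℕ → PN) (Ψ : ℕ → ℕ → ℕ → PN) (x : ℕ → ℝ) :
    (rfr M m K' lam gam P Ψ x).support ⊆ exs m K' := by
  classical
  intro α hα
  by_contra h
  rw [MvPolynomial.mem_support_iff] at hα
  refine hα ?_
  unfold rfr
  rw [coeff_sum, Finset.sum_eq_zero]
  intro β hβ
  rw [coeff_monomial]
  refine if_neg ?_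
  rintro rfl
  exact h hβ

theorem vars_of_supp {m K : ℕ} {R : PN} (h : R.support ⊆ exs m K) : R.vars ⊆ range m := by
  intro i hi
  obtain ⟨α, hα, hiα⟩ := (mem_vars_iff_mem_support i).1 hi
  have := h hα
  unfold exs at this
  rw [Finset.mem_finsupp_iff] at this
  exact this.1 hiα

theorem deg_of_supp {m K : ℕ} {R : PN} (h : R.support ⊆ exs m K) : R.totalDegree ≤ m * K := by
  refine Finset.sup_le fun α hα => ?_
  have := h hα
  unfold exs at this
  rw [Finset.mem_finsupp_iff] at this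
  rw [Finsupp.sum]
  calc ∑ i ∈ α.support, α i ≤ ∑ _i ∈ α.support, K :=
        Finset.sum_le_sum fun i hi => Nat.lt_succ_iff.1 (mem_range.1 (this.2 i (this.1 hi)))
    _ = α.support.card * K := by rw [Finset.sum_const, smul_eq_mul]
    _ ≤ m * K := by
        refine Nat.mul_le_mul_right _ ?_
        have := Finset.card_le_card this.1
        rwa [card_range] at this

theorem coeff_zero_of_supp {m K : ℕ} {R : PN} (h : R.support ⊆ exs m K) {α : ℕ →₀ ℕ}
    (hα : α ∉ exs m K) : coeff α R = 0 := by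
  by_contra h0
  exact hα (h (MvPolynomial.mem_support_iff.2 h0))

theorem zero_mem_exs (m K : ℕ) : (0 : ℕ →₀ ℕ) ∈ exs m K := by
  unfold exs
  rw [Finset.mem_finsupp_iff]
  simp

/-- The coefficients against the best corner. -/
theorem coef_corner {n K M z : ℕ} {lam gam : ℕ → ℝ} {C₁ : ℝ} {Ψ : ℕ → ℕ → ℕ → PN}
    {g : ℕ → ℕ → ℕ → ℕ} {x : ℕ → ℝ} (hG : Grd n K M z lam gam C₁ Ψ g x) (hC : 0 ≤ C₁)
    {m K'' : ℕ} (hmn : m ≤ n) {L S₀ : ℝ} (hL : ∀ k ≤ n, |lam k| ≤ L ∧ |gam k| ≤ L) (hS : 0 ≤ S₀)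
    (hM : 1 ≤ M) (hz : 1 ≤ z) (P : ℕ → PN)
    (h1 : ∀ i < M, ∀ j ≤ M, nrm (g (i + 1) j) (1 / 2) (chr P (Ψ (i + 1) j m - Ψ i j m)) ≤
      S₀ / 2 ^ g (i + 1) j m)
    (h2 : ∀ i < M, ∀ j < M, nrm (g (i + 1) (j + 1)) (1 / 2)
      (chr P (Ψ (i + 1) (j + 1) m - Ψ i j m)) ≤ S₀ / 2 ^ g (i + 1) (j + 1) m)
    {α : ℕ →₀ ℕ} (hα : α ∈ exs m K'') {i j : ℕ} (hi : i ≤ M) (hj : j ≤ M) :
    |coeff α (chr P (Ψ i j m)) -
      coeff α (chr P (Ψ (crn M (slp lam m α)) (crn M (slp gam m α)) m))| *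
      (1 / 2 : ℝ) ^ Finsupp.weight (g i j) α ≤
      5 * M * S₀ * exp (2 * ((m * K'' + 1) * (C₁ * z))) *
        exp (4 * ((m * K'' + 1) * L * z)) / 2 ^ g i j m := by
  obtain ⟨f, hf⟩ : ∃ f : ℕ → ℕ → ℝ, f = fun i j => coeff α (chr P (Ψ i j m)) := ⟨_, rfl⟩
  obtain ⟨w₀, hw₀⟩ : ∃ w₀ : ℝ, w₀ = 2 ^ Finsupp.weight (g 0 0) α / 2 ^ g 0 0 m := ⟨_, rfl⟩
  have hw₀0 : 0 < w₀ := by rw [hw₀]; positivity
  obtain ⟨p, hp⟩ : ∃ p, p = slp lam m α := ⟨_, rfl⟩
  obtain ⟨q, hq⟩ : ∃ q, q = slp gam m α := ⟨_, rfl⟩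
  obtain ⟨y, hy⟩ : ∃ y : ℝ, y = z * Real.log 2 := ⟨_, rfl⟩
  obtain ⟨a, ha⟩ : ∃ a : ℝ, a = (m * K'' + 1) * (C₁ * z) := ⟨_, rfl⟩
  obtain ⟨s, hs⟩ : ∃ s : ℝ, s = (m * K'' + 1) * L * z := ⟨_, rfl⟩
  have hz1 : (1 : ℝ) ≤ z := by exact_mod_cast hz
  have hz0 : (0 : ℝ) ≤ z := by linarith
  have hl2 : 0 < Real.log 2 := Real.log_pos (by norm_num)
  have hl2' : Real.log 2 ≤ 1 := by linarith [Real.log_two_lt_d9]
  have hy0 : 0 < y := by rw [hy]; positivity
  have hyz : y ≤ z := by rw [hy]; exact mul_le_of_le_one_right hz0 hl2'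
  have hps : |p| * y ≤ s := by
    rw [hp, hs]
    exact mul_le_mul (slp_le (fun k hk => (hL k hk).1) hmn hα) hyz hy0.le
      ((abs_nonneg _).trans (slp_le (fun k hk => (hL k hk).1) hmn hα))
  have hqs : |q| * y ≤ s := by
    rw [hq, hs]
    exact mul_le_mul (slp_le (fun k hk => (hL k hk).2) hmn hα) hyz hy0.le
      ((abs_nonneg _).trans (slp_le (fun k hk => (hL k hk).2) hmn hα))
  rw [← ha, ← hs, ← hp, ← hq]
  have hW := fun i' j' (hi' : i' ≤ M) (hj' : j' ≤ M) => wt_two hG hC hmn hα hi' hj'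
  rw [← ha, ← hw₀, ← hp, ← hq, ← hy] at hW
  have one : ∀ i' j' i'' j'' : ℕ, i' ≤ M → j' ≤ M →
      nrm (g i' j') (1 / 2) (chr P (Ψ i' j' m - Ψ i'' j'' m)) ≤ S₀ / 2 ^ g i' j' m →
      |f i' j' - f i'' j''| ≤ S₀ * (w₀ * exp a * exp (-(p * i' + q * j') * y)) := by
    intro i' j' i'' j'' hi' hj' hb
    have e2 := coeff_le_nrm (g i' j') (by norm_num : (0 : ℝ) ≤ 1 / 2)
      (chr P (Ψ i' j' m - Ψ i'' j'' m)) α
    have e3 : f i' j' - f i'' j'' = coeff α (chr P (Ψ i' j' m - Ψ i'' j'' m)) := by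
      rw [hf, chr_sub, coeff_sub]
    rw [e3]
    rw [half_pow] at e2
    have e4 : |coeff α (chr P (Ψ i' j' m - Ψ i'' j'' m))| ≤
        S₀ * (2 ^ Finsupp.weight (g i' j') α / 2 ^ g i' j' m) := by
      have := e2.trans hb
      rw [mul_one_div, div_le_iff₀ (by positivity)] at this
      refine this.trans (le_of_eq ?_)
      ring
    exact e4.trans (mul_le_mul_of_nonneg_left (hW i' j' hi' hj').1 hS)
  have hsh : ∀ i' j' i'' j'' : ℕ, (i'' : ℝ) = i' + 1 → ((j'' : ℝ) = j' ∨ (j'' : ℝ) = j' + 1) →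
      exp (-(p * i'' + q * j'') * y) ≤ exp (2 * s) * exp (-(p * i' + q * j') * y) := by
    intro i' j' i'' j'' h1 h2
    rw [← exp_add]
    refine exp_le_exp.2 ?_
    have a1 := neg_abs_le p
    have a2 := neg_abs_le q
    have b1 : -(p * y) ≤ |p| * y := by nlinarith
    have b2 : -(q * y) ≤ |q| * y := by nlinarith
    have b3 : 0 ≤ |q| * y := by positivity
    rw [h1]
    rcases h2 with h2 | h2 <;> rw [h2] <;> nlinarith
  obtain ⟨A, hA⟩ : ∃ A : ℝ, A = S₀ * (w₀ * exp a * exp (2 * s)) := ⟨_, rfl⟩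
  have hA0 : 0 ≤ A := by rw [hA]; positivity
  have two : ∀ i' j' i'' j'' : ℕ, i'' ≤ M → j'' ≤ M → (i'' : ℝ) = i' + 1 →
      ((j'' : ℝ) = j' ∨ (j'' : ℝ) = j' + 1) →
      nrm (g i'' j'') (1 / 2) (chr P (Ψ i'' j'' m - Ψ i' j' m)) ≤ S₀ / 2 ^ g i'' j'' m →
      |f i'' j'' - f i' j'| ≤ A * exp (-(p * i' + q * j') * y) := by
    intro i' j' i'' j'' k1 k2 k3 k4 k5
    refine (one i'' j'' i' j' k1 k2 k5).trans ?_
    have e1 := hsh i' j' i'' j'' k3 k4
    have e2 : w₀ * exp a * exp (-(p * i'' + q * j'') * y) ≤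
        w₀ * exp a * (exp (2 * s) * exp (-(p * i' + q * j') * y)) :=
      mul_le_mul_of_nonneg_left e1 (by positivity)
    refine (mul_le_mul_of_nonneg_left e2 hS).trans (le_of_eq ?_)
    rw [hA]
    ring
  have main := corner M hM f A p q y s hA0 hy0 hps hqs
    (fun i' hi' j' hj' => two i' j' (i' + 1) j' (by omega) hj' (by push_cast; ring) (Or.inl rfl)
      (h1 i' hi' j' hj'))
    (fun i' hi' j' hj' => two i' j' (i' + 1) (j' + 1) (by omega) (by omega) (by push_cast; ring)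
      (Or.inr (by push_cast; ring)) (h2 i' hi' j' hj')) i hi j hj
  have e1 : coeff α (chr P (Ψ i j m)) - coeff α (chr P (Ψ (crn M p) (crn M q) m)) =
      f i j - f (crn M p) (crn M q) := by rw [hf]
  rw [e1, half_pow, mul_one_div, div_le_iff₀ (by positivity)]
  have e5 := (hW i j hi hj).2
  have e6 : 5 * (M : ℝ) * A * exp (2 * s) * exp (-(p * i + q * j) * y) =
      5 * M * S₀ * exp a * exp (4 * s) * (w₀ * exp (-(p * i + q * j) * y)) := by
    rw [hA, show (4 : ℝ) * s = 2 * s + 2 * s by ring, exp_add]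
    ring
  rw [e6] at main
  refine main.trans ?_
  refine (mul_le_mul_of_nonneg_left e5 (by positivity)).trans (le_of_eq ?_)
  rw [show (2 : ℝ) * a = a + a by ring, exp_add]
  ring

/-- **Stage `m`.** -/
theorem frame_aux (n K : ℕ) (lam gam : ℕ → ℝ) (C₁ : ℝ) (hC₁ : 0 ≤ C₁) : ∀ m ≤ n + 1,
    ∃ (K' : ℕ) (C' : ℝ), K ≤ K' ∧ 0 ≤ C' ∧ ∀ (M z : ℕ) (Ψ : ℕ → ℕ → ℕ → PN)
      (g : ℕ → ℕ → ℕ → ℕ) (x : ℕ → ℝ), 1 ≤ M → 1 ≤ z → (M : ℝ) ≤ exp z →
      Grd n K M z lam gam C₁ Ψ g x → ∃ P : ℕ → PN, TriN P ∧ (∀ l, (P l).totalDegree ≤ K') ∧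
        (∀ l < m, eval x (P l) = x l) ∧ ∀ i ≤ M, ∀ j ≤ M, ∀ l < m,
          nrm (g i j) (1 / 2) (chr P (Ψ i j l - P l)) ≤ exp (C' * z) / 2 ^ g i j l := by
  classical
  obtain ⟨L, hL⟩ : ∃ L : ℝ, ∀ k ≤ n, |lam k| ≤ L ∧ |gam k| ≤ L := by
    refine ⟨∑ k ∈ range (n + 1), (|lam k| + |gam k|), fun k hk => ?_⟩
    have h1 := Finset.single_le_sum (f := fun k => |lam k| + |gam k|)
      (fun k _ => by positivity) (mem_range.2 (Nat.lt_succ_of_le hk))
    have h2 := abs_nonneg (lam k)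
    have h3 := abs_nonneg (gam k)
    constructor <;> linarith
  have hL0 : 0 ≤ L := (abs_nonneg _).trans (hL 0 (Nat.zero_le _)).1
  intro m
  induction m with
  | zero =>
    intro _
    refine ⟨K, 0, le_rfl, le_rfl, ?_⟩
    intro M z Ψ g x _ _ _ _
    refine ⟨fun _ => 0, fun i => ?_, fun l => ?_, fun l hl => absurd hl (Nat.not_lt_zero _),
      fun _ _ _ _ l hl => absurd hl (Nat.not_lt_zero _)⟩
    · rw [vars_0]
      exact Finset.empty_subset _
    · rw [totalDegree_zero]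
      exact Nat.zero_le _
  | succ m ih =>
    intro hm
    obtain ⟨K', C', hKK, hC', h⟩ := ih (by omega)
    obtain ⟨Cs, Ds, hCs, hs⟩ := step m K'
    have hmn : m ≤ n := by omega
    obtain ⟨K'', hK''⟩ : ∃ K'', K'' = K * (K' + 1) ^ m := ⟨_, rfl⟩
    obtain ⟨N, hN⟩ : ∃ N : ℝ, N = ((exs m K'').card : ℝ) := ⟨_, rfl⟩
    have hN1 : 1 ≤ N := by
      rw [hN]
      exact_mod_cast Finset.card_pos.2 ⟨0, zero_mem_exs m K''⟩
    obtain ⟨ca, hca⟩ : ∃ ca : ℝ, ca = (m * K'' + 1) * C₁ := ⟨_, rfl⟩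
    obtain ⟨cs, hcs⟩ : ∃ cs : ℝ, cs = (m * K'' + 1) * L := ⟨_, rfl⟩
    have hca0 : 0 ≤ ca := by rw [hca]; positivity
    have hcs0 : 0 ≤ cs := by rw [hcs]; positivity
    obtain ⟨lg, hlg⟩ : ∃ lg : ℝ, lg = Real.log (5 * Cs * N) := ⟨_, rfl⟩
    have hCN : 1 ≤ 5 * Cs * N := by nlinarith
    have hlg0 : 0 ≤ lg := by rw [hlg]; exact Real.log_nonneg hCN
    refine ⟨max K' (m * K'' * (K' + 1)), C' + (C' * Ds + C₁ + 2 * ca + 4 * cs + lg + 1),
      hKK.trans (le_max_left _ _), by positivity, ?_⟩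
    intro M z Ψ g x hM hz hMz hG
    obtain ⟨P, hP, dP, vP, nP⟩ := h M z Ψ g x hM hz hMz hG
    have hz1 : (1 : ℝ) ≤ z := by exact_mod_cast hz
    have hz0 : (0 : ℝ) ≤ z := by linarith
    obtain ⟨R, hR⟩ : ∃ R, R = rfr M m K'' lam gam P Ψ x := ⟨_, rfl⟩
    have sR : R.support ⊆ exs m K'' := by rw [hR]; exact supp_rfr _ _ _ _ _ _ _ _
    have vR := vars_of_supp sR
    obtain ⟨Q, hQ⟩ : ∃ Q : PN, Q = bind₁ (fun k => (X k - P k : PN)) R := ⟨_, rfl⟩
    have hXP : ∀ k, (X k - P k : PN).vars ⊆ range (k + 1) := fun k =>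
      AdxRow.vars_sub_le (AdxRow.vars_X_le (Nat.lt_succ_self _))
        ((hP k).trans (Finset.range_mono (by omega)))
    have vQ : Q.vars ⊆ range m := by
      rw [hQ]
      exact AdxRow.vars_bnd vR fun k hk => (hXP k).trans (Finset.range_mono (by omega))
    have dQ : Q.totalDegree ≤ m * K'' * (K' + 1) := by
      rw [hQ]
      refine (Dgb.deg_bind (B := K' + 1) fun k _ => ?_).trans
        (Nat.mul_le_mul_right _ (deg_of_supp sR))
      refine (totalDegree_sub _ _).trans (max_le ?_ ((dP k).trans (by omega)))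
      rw [totalDegree_X]
      omega
    have cQ : chr P Q = R := by rw [hQ]; exact chr_inv hP R
    obtain ⟨P', hP'⟩ : ∃ P', P' = Function.update P m Q := ⟨_, rfl⟩
    have eP : ∀ k, k ≠ m → P' k = P k := fun k hk => by
      rw [hP', Function.update_of_ne hk]
    have eQ : P' m = Q := by rw [hP', Function.update_self]
    have tP' : TriN P' := by
      intro k
      by_cases hk : k = m
      · subst hk
        rw [eQ]
        exact vQ
      · rw [eP k hk]
        exact hP k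
    have hcg : ∀ F : PN, F.vars ⊆ range m → chr P' F = chr P F := fun F hF =>
      chr_congr tP' hP (fun k hk => eP k hk.ne) hF
    have hzx : ∀ F : PN, F.vars ⊆ range m → eval x F = coeff 0 (chr P F) := by
      intro F hF
      have e1 : eval (zs P x) (chr P F) = eval (fun _ => (0 : ℝ)) (chr P F) :=
        Pool.SYS35.eval_congr (chr_vars hP hF) fun i hi => by
          unfold zs
          rw [vP i hi, sub_self]
      rw [← chr_eval hP x F, e1, ← constantCoeff_eq]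
      exact RingHom.congr_fun eval_zero _
    have hx0 : eval x Q = x m := by
      rw [hzx Q vQ, cQ, hR, coeff_rfr _ _ _ _ _ _ _ _ (zero_mem_exs m K''), if_pos rfl]
    have hchr : ∀ i j : ℕ, (chr P (Ψ i j m)).support ⊆ exs m K'' := fun i j => by
      rw [hK'']
      exact supp_exs (chr_vars hP (hG.tri i j m))
        (chr_deg hP (fun k _ => dP k) (hG.tri i j m) (hG.deg i j m))
    obtain ⟨S₀, hS₀⟩ : ∃ S₀ : ℝ, S₀ = Cs * exp (C' * z) ^ Ds * exp (C₁ * z) := ⟨_, rfl⟩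
    have hCs0 : 0 < Cs := by linarith
    have hS0 : 0 ≤ S₀ := by rw [hS₀]; positivity
    have one : ∀ i' j' i'' j'' : ℕ, i' ≤ M → j' ≤ M → (∀ b : ℕ → ℝ,
        (∀ k < m, |nat (g i' j') (Ψ i' j') b k| ≤ 1) →
        |eval b (Ψ i' j' m) - eval b (Ψ i'' j'' m)| ≤ exp (C₁ * z) / 2 ^ g i' j' m) →
        nrm (g i' j') (1 / 2) (chr P (Ψ i' j' m - Ψ i'' j'' m)) ≤ S₀ / 2 ^ g i' j' m := by
      intro i' j' i'' j'' hi' hj' hb
      refine (hs (g i' j') (Ψ i' j') P (Ψ i' j' m - Ψ i'' j'' m)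
        (exp (C₁ * z) / 2 ^ g i' j' m) (exp (C' * z)) (hG.tri i' j') hP
        (fun k _ => (hG.deg i' j' k).trans hKK) (fun k _ => dP k)
        (AdxRow.vars_sub_le (hG.tri i' j' m) (hG.tri i'' j'' m))
        ((totalDegree_sub _ _).trans
          (max_le ((hG.deg i' j' m).trans hKK) ((hG.deg i'' j'' m).trans hKK)))
        (one_le_exp (by positivity)) (fun k hk => nP i' hi' j' hj' k hk) (fun b hbb => by
          rw [map_sub]
          exact hb b hbb)).trans (le_of_eq ?_)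
      rw [hS₀]
      ring
    obtain ⟨B, hB⟩ : ∃ B : ℝ, B = 5 * M * S₀ * exp (2 * ((m * K'' + 1) * (C₁ * z))) *
        exp (4 * ((m * K'' + 1) * L * z)) := ⟨_, rfl⟩
    have hM1 : (1 : ℝ) ≤ M := by exact_mod_cast hM
    have hS1 : 1 ≤ S₀ := by
      rw [hS₀]
      have e1 : 1 ≤ exp (C' * z) ^ Ds := one_le_pow₀ (one_le_exp (by positivity))
      have e2 : 1 ≤ exp (C₁ * z) := one_le_exp (by positivity)
      have e3 : 1 ≤ Cs * exp (C' * z) ^ Ds := by nlinarith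
      nlinarith
    have hB1 : 1 ≤ B := by
      rw [hB]
      have e1 : 1 ≤ exp (2 * ((m * K'' + 1) * (C₁ * z))) := one_le_exp (by positivity)
      have e2 : 1 ≤ exp (4 * ((m * K'' + 1) * L * z)) := one_le_exp (by positivity)
      have e3 : 1 ≤ 5 * (M : ℝ) * S₀ := by nlinarith
      have e4 : 1 ≤ 5 * (M : ℝ) * S₀ * exp (2 * ((m * K'' + 1) * (C₁ * z))) := by nlinarith
      nlinarith
    have key : ∀ i ≤ M, ∀ j ≤ M, ∀ α : ℕ →₀ ℕ,
        |coeff α (chr P (Ψ i j m) - R)| * (1 / 2 : ℝ) ^ Finsupp.weight (g i j) α ≤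
          B / 2 ^ g i j m := by
      intro i hi j hj α
      by_cases hα : α ∈ exs m K''
      swap
      · rw [coeff_sub, coeff_zero_of_supp (hchr i j) hα, coeff_zero_of_supp sR hα, sub_zero,
          abs_zero, zero_mul]
        positivity
      by_cases h0 : α = 0
      · subst h0
        rw [map_zero, pow_zero, mul_one, coeff_sub, ← hzx _ (hG.tri i j m), hR,
          coeff_rfr _ _ _ _ _ _ _ _ hα, if_pos rfl, abs_sub_comm]
        refine (hG.pos i hi j hj m hmn).trans ?_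
        exact div_le_div_of_nonneg_right hB1 (by positivity)
      rw [coeff_sub, hR, coeff_rfr _ _ _ _ _ _ _ _ hα, if_neg h0, hB]
      exact coef_corner hG hC₁ hmn hL hS0 hM hz P
        (fun i' hi' j' hj' => one (i' + 1) j' i' j' (by omega) hj' (hG.adj₁ i' hi' j' hj' m hmn))
        (fun i' hi' j' hj' => one (i' + 1) (j' + 1) i' j' (by omega) (by omega)
          (hG.adj₂ i' hi' j' hj' m hmn)) hα hi hj
    have hfin : N * B ≤ exp ((C' + (C' * Ds + C₁ + 2 * ca + 4 * cs + lg + 1)) * z) := by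
      have e9 : exp (C' * z) ^ Ds = exp (C' * Ds * z) := by
        rw [← exp_nat_mul]
        congr 1
        ring
      have e10 : 5 * Cs * N ≤ exp (lg * z) := by
        calc 5 * Cs * N = exp lg := by rw [hlg, exp_log (by linarith)]
          _ ≤ exp (lg * z) := exp_le_exp.2 (by nlinarith)
      have e11 : N * B = (5 * Cs * N) * M * (exp (C' * Ds * z) * exp (C₁ * z) *
          exp (2 * (ca * z)) * exp (4 * (cs * z))) := by
        rw [hB, hS₀, e9, hca, hcs, show ((m * K'' + 1) * (C₁ * z) : ℝ) =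
          (m * K'' + 1) * C₁ * z by ring]
        ring
      rw [e11]
      have e13 : (5 * Cs * N) * M ≤ exp (lg * z) * exp z :=
        mul_le_mul e10 hMz (Nat.cast_nonneg _) (exp_pos _).le
      refine (mul_le_mul_of_nonneg_right e13 (by positivity)).trans ?_
      rw [← exp_add, ← exp_add, ← exp_add, ← exp_add, ← exp_add]
      refine exp_le_exp.2 ?_
      have : 0 ≤ C' * z := by positivity
      nlinarith
    refine ⟨P', tP', fun l => ?_, fun l hl => ?_, ?_⟩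
    · by_cases hl : l = m
      · subst hl
        rw [eQ]
        exact dQ.trans (le_max_right _ _)
      · rw [eP l hl]
        exact (dP l).trans (le_max_left _ _)
    · by_cases hlm : l = m
      · subst hlm
        rw [eQ]
        exact hx0
      · rw [eP l hlm]
        exact vP l (by omega)
    · intro i hi j hj l hl
      by_cases hlm : l = m
      · subst hlm
        rw [eQ, hcg _ (AdxRow.vars_sub_le (hG.tri i j l) vQ), chr_sub, cQ]
        have hsup : (chr P (Ψ i j l) - R).support ⊆ exs l K'' := by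
          intro α hα
          by_contra h0
          rw [MvPolynomial.mem_support_iff, coeff_sub, coeff_zero_of_supp (hchr i j) h0,
            coeff_zero_of_supp sR h0, sub_zero] at hα
          exact hα rfl
        have e1 : nrm (g i j) (1 / 2) (chr P (Ψ i j l) - R) ≤ N * (B / 2 ^ g i j l) := by
          unfold nrm
          calc ∑ k ∈ (chr P (Ψ i j l) - R).support, |coeff k (chr P (Ψ i j l) - R)| *
                (1 / 2) ^ Finsupp.weight (g i j) k
              ≤ ∑ k ∈ exs l K'', |coeff k (chr P (Ψ i j l) - R)| *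
                (1 / 2) ^ Finsupp.weight (g i j) k :=
                Finset.sum_le_sum_of_subset_of_nonneg hsup
                  fun _ _ _ => mul_nonneg (abs_nonneg _) (by positivity)
            _ ≤ ∑ _k ∈ exs l K'', B / 2 ^ g i j l :=
                Finset.sum_le_sum fun k _ => key i hi j hj k
            _ = N * (B / 2 ^ g i j l) := by rw [Finset.sum_const, nsmul_eq_mul, hN]
        refine e1.trans ?_
        rw [← mul_div_assoc]
        exact div_le_div_of_nonneg_right hfin (by positivity)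
      · rw [eP l hlm, hcg _ ((AdxRow.vars_sub_le (hG.tri i j l) (hP l)).trans
          (Finset.range_mono (by omega)))]
        refine (nP i hi j hj l (by omega)).trans ?_
        refine div_le_div_of_nonneg_right (exp_le_exp.2 ?_) (by positivity)
        refine mul_le_mul_of_nonneg_right ?_ hz0
        have : 0 ≤ C' * Ds := by positivity
        linarith

/-- **The frame lemma.** -/
theorem frame (n K : ℕ) (lam gam : ℕ → ℝ) (C₁ : ℝ) (hC₁ : 0 ≤ C₁) : ∃ (K' : ℕ) (C' : ℝ),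
    K ≤ K' ∧ 0 ≤ C' ∧ ∀ (M z : ℕ) (Ψ : ℕ → ℕ → ℕ → PN) (g : ℕ → ℕ → ℕ → ℕ) (x : ℕ → ℝ),
      1 ≤ M → 1 ≤ z → (M : ℝ) ≤ exp z → Grd n K M z lam gam C₁ Ψ g x →
      ∃ P : ℕ → PN, TriN P ∧ (∀ l, (P l).totalDegree ≤ K') ∧ (∀ l ≤ n, eval x (P l) = x l) ∧
        ∀ i ≤ M, ∀ j ≤ M, ∀ l ≤ n,
          nrm (g i j) (1 / 2) (chr P (Ψ i j l - P l)) ≤ exp (C' * z) / 2 ^ g i j l := by
  obtain ⟨K', C', h1, h2, h⟩ := frame_aux n K lam gam C₁ hC₁ (n + 1) le_rfl
  refine ⟨K', C', h1, h2, ?_⟩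
  intro M z Ψ g x hM hz hMz hG
  obtain ⟨P, a1, a2, a3, a4⟩ := h M z Ψ g x hM hz hMz hG
  exact ⟨P, a1, a2, fun l hl => a3 l (by omega), fun i hi j hj l hl => a4 i hi j hj l (by omega)⟩

end Pool.FRM
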