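import Pool.Agent.H20.MIC.Frm

/-!
# Charts with unit scales

`chr P F` is the polynomial `F` in the coordinates `b k - P k (b)` of a triangular system `P`.
-/

set_option autoImplicit false

namespace Pool.FRM

open Finset Real MvPolynomial
open Pool.STAT Pool.MIC.Frm
open Pool.SYS35 (nrm_nonneg')

/-- The polynomial `F` in the coordinates over `P`. -/
noncomputable def chr (P : ℕ → PN) (F : PN) : PN := bind₁ (nuc (fun _ => 0) P) F

/-- The coordinates over `P`. -/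
noncomputable def zs (P : ℕ → PN) (b : ℕ → ℝ) (k : ℕ) : ℝ := b k - eval b (P k)

/-- The point with the coordinates `ζ` over `P`. -/
noncomputable def ps (P : ℕ → PN) (ζ : ℕ → ℝ) : ℕ → ℝ := pt (fun _ => 0) P ζ

section basic

variable {P : ℕ → PN}

theorem nat_eq (g : ℕ → ℕ) (b : ℕ → ℝ) (k : ℕ) : nat g P b k = 2 ^ g k * zs P b k := rfl

theorem nat_zero (b : ℕ → ℝ) : nat (fun _ => 0) P b = zs P b := by
  funext k
  unfold nat zs
  rw [pow_zero, one_mul]

theorem zs_ps (hP : TriN P) (ζ : ℕ → ℝ) : zs P (ps P ζ) = ζ := by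
  rw [← nat_zero]
  exact nat_pt hP ζ

theorem ps_zs (hP : TriN P) (b : ℕ → ℝ) : ps P (zs P b) = b := by
  rw [← nat_zero]
  exact pt_nat hP b

theorem ps_eq (hP : TriN P) (ζ : ℕ → ℝ) (k : ℕ) : ps P ζ k = eval (ps P ζ) (P k) + ζ k := by
  unfold ps
  rw [pt_eq hP ζ k]
  norm_num

theorem chr_eval (hP : TriN P) (b : ℕ → ℝ) (F : PN) : eval (zs P b) (chr P F) = eval b F := by
  rw [← nat_zero]
  exact eval_fr hP b F

theorem chr_eval' (ζ : ℕ → ℝ) (F : PN) : eval ζ (chr P F) = eval (ps P ζ) F := eval_fr' ζ F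

theorem chr_vars (hP : TriN P) {F : PN} {m : ℕ} (hF : F.vars ⊆ range m) :
    (chr P F).vars ⊆ range m := vars_fr hP hF

theorem chr_deg {K K' m : ℕ} (hP : TriN P) (hK : ∀ i < m, (P i).totalDegree ≤ K) {F : PN}
    (hv : F.vars ⊆ range m) (hF : F.totalDegree ≤ K') :
    (chr P F).totalDegree ≤ K' * (K + 1) ^ m := deg_fr hP hK hv hF

theorem chr_sub (F G : PN) : chr P (F - G) = chr P F - chr P G := map_sub _ _ _

theorem chr_add (F G : PN) : chr P (F + G) = chr P F + chr P G := map_add _ _ _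

theorem chr_X (hP : TriN P) (k : ℕ) : chr P (X k - P k : PN) = X k := by
  unfold chr
  rw [map_sub, bind₁_X_right, AdxRow.nuc_eq hP]
  simp

/-- A polynomial with given coefficients in the chart. -/
theorem chr_inv (hP : TriN P) (R : PN) : chr P (bind₁ (fun k => (X k - P k : PN)) R) = R := by
  have h : ∀ k, bind₁ (nuc (fun _ => 0) P) (X k - P k : PN) = X k := fun k => chr_X hP k
  unfold chr
  rw [bind₁_bind₁]
  have h2 : (fun k => bind₁ (nuc (fun _ => 0) P) (X k - P k : PN)) = (X : ℕ → PN) :=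
    funext h
  rw [h2, bind₁_X_left, AlgHom.id_apply]

/-- Only the first labels matter. -/
theorem chr_congr {P' : ℕ → PN} (hP : TriN P) (hP' : TriN P') {m : ℕ}
    (h : ∀ k < m, P k = P' k) {F : PN} (hF : F.vars ⊆ range m) : chr P F = chr P' F := by
  have h1 : ∀ k < m, nuc (fun _ => 0) P k = nuc (fun _ => 0) P' k := by
    intro k
    induction k using Nat.strong_induction_on with
    | _ k ih =>
      intro hk
      rw [AdxRow.nuc_eq hP, AdxRow.nuc_eq hP', h k hk]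
      rw [AdxRow.bnd_congr fun i hi => ih i (mem_range.1 (hP' k hi))
        ((mem_range.1 (hP' k hi)).trans hk)]
  exact AdxRow.bnd_congr fun k hk => h1 k (mem_range.1 (hF hk))

theorem zs_congr {b b' : ℕ → ℝ} {m k : ℕ} (hP : TriN P) (h : ∀ i < m, b i = b' i) (hk : k < m) :
    zs P b k = zs P b' k := by
  unfold zs
  rw [h k hk, Pool.SYS35.eval_congr (hP k) fun i hi => h i (hi.trans hk)]

end basic

/-! ### Norms -/

/-- The exponents. -/
noncomputable def exs (n K : ℕ) : Finset (ℕ →₀ ℕ) := Finset.finsupp (range n) fun _ => range (K + 1)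

theorem supp_exs {n K : ℕ} {F : PN} (hv : F.vars ⊆ range n) (hK : F.totalDegree ≤ K) :
    F.support ⊆ exs n K := by
  intro α hα
  unfold exs
  rw [Finset.mem_finsupp_iff]
  constructor
  · intro i hi
    exact mem_range.2 (Pool.SYS35.vars_of_mem hv hα hi)
  · intro i _
    rw [mem_range, Nat.lt_succ_iff]
    exact (monomial_le_degreeOf i hα).trans ((degreeOf_le_totalDegree F i).trans hK)

theorem coeff_le_nrm (d : ℕ → ℕ) {ρ : ℝ} (hρ : 0 ≤ ρ) (F : PN) (α : ℕ →₀ ℕ) :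
    |coeff α F| * ρ ^ Finsupp.weight d α ≤ nrm d ρ F := by
  by_cases hα : α ∈ F.support
  · unfold nrm
    exact Finset.single_le_sum (f := fun k => |F.coeff k| * ρ ^ Finsupp.weight d k)
      (fun k _ => mul_nonneg (abs_nonneg _) (pow_nonneg hρ _)) hα
  · rw [notMem_support_iff.1 hα, abs_zero, zero_mul]
    exact nrm_nonneg' d hρ F

theorem nrm_le_coeff {n K : ℕ} {F : PN} (hv : F.vars ⊆ range n) (hK : F.totalDegree ≤ K)
    (d : ℕ → ℕ) {ρ S : ℝ} (hρ : 0 ≤ ρ) (h : ∀ α, |coeff α F| * ρ ^ Finsupp.weight d α ≤ S) :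
    nrm d ρ F ≤ (exs n K).card * S := by
  have hS : 0 ≤ S := (mul_nonneg (abs_nonneg _) (pow_nonneg hρ _)).trans (h 0)
  unfold nrm
  calc ∑ k ∈ F.support, |F.coeff k| * ρ ^ Finsupp.weight d k
      ≤ ∑ k ∈ exs n K, |F.coeff k| * ρ ^ Finsupp.weight d k :=
        Finset.sum_le_sum_of_subset_of_nonneg (supp_exs hv hK)
          fun _ _ _ => mul_nonneg (abs_nonneg _) (pow_nonneg hρ _)
    _ ≤ ∑ _k ∈ exs n K, S := Finset.sum_le_sum fun k _ => h k
    _ = (exs n K).card * S := by rw [Finset.sum_const, nsmul_eq_mul]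

/-- The values on a box. -/
theorem eval_le_nrm {n K : ℕ} {F : PN} (hv : F.vars ⊆ range n) (hK : F.totalDegree ≤ K)
    (d : ℕ → ℕ) {B : ℝ} (hB : 1 ≤ B) {b : ℕ → ℝ} (hb : ∀ i < n, |b i| ≤ B / 2 ^ d i) :
    |eval b F| ≤ B ^ K * nrm d (1 / 2) F := by
  have hB0 : 0 ≤ B := by linarith
  rw [eval_eq]
  unfold nrm
  rw [Finset.mul_sum]
  refine (Finset.abs_sum_le_sum_abs _ _).trans (Finset.sum_le_sum fun k hk => ?_)
  rw [abs_mul, Finset.abs_prod]
  have h1 : (∏ i ∈ k.support, |b i ^ k i|) ≤ ∏ i ∈ k.support, (B ^ k i * (1 / 2) ^ (k i * d i)) := by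
    refine Finset.prod_le_prod (fun _ _ => abs_nonneg _) fun i hi => ?_
    rw [abs_pow, mul_comm (k i) (d i), pow_mul, ← mul_pow]
    refine pow_le_pow_left₀ (abs_nonneg _) ?_ _
    rw [one_div, inv_pow, ← div_eq_mul_inv]
    exact hb i (Pool.SYS35.vars_of_mem hv hk hi)
  have h2 : (∏ i ∈ k.support, (B ^ k i * (1 / 2 : ℝ) ^ (k i * d i))) =
      B ^ (∑ i ∈ k.support, k i) * (1 / 2) ^ Finsupp.weight d k := by
    rw [Finset.prod_mul_distrib, Finset.prod_pow_eq_pow_sum, Finset.prod_pow_eq_pow_sum]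
    congr 2
  have h3 : (∑ i ∈ k.support, k i) ≤ K := (le_totalDegree hk).trans hK
  calc |F.coeff k| * ∏ i ∈ k.support, |b i ^ k i|
      ≤ |F.coeff k| * (B ^ (∑ i ∈ k.support, k i) * (1 / 2) ^ Finsupp.weight d k) :=
        mul_le_mul_of_nonneg_left (h1.trans h2.le) (abs_nonneg _)
    _ ≤ |F.coeff k| * (B ^ K * (1 / 2) ^ Finsupp.weight d k) := by
        refine mul_le_mul_of_nonneg_left (mul_le_mul_of_nonneg_right
          (pow_le_pow_right₀ hB h3) (by positivity)) (abs_nonneg _)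
    _ = B ^ K * (|F.coeff k| * (1 / 2) ^ Finsupp.weight d k) := by ring

theorem half_pow (k : ℕ) : (1 / 2 : ℝ) ^ k = 1 / 2 ^ k := by
  rw [one_div, inv_pow, one_div]

/-- **One step**: a polynomial which is small on the natural box of `Φ` has a small norm in the
chart of `P`, if `Φ` is near to `P`. -/
theorem step (m K : ℕ) : ∃ (C : ℝ) (D : ℕ), 1 ≤ C ∧ ∀ (g : ℕ → ℕ) (Φ P : ℕ → PN) (F : PN)
    (S B : ℝ), TriN Φ → TriN P → (∀ i < m, (Φ i).totalDegree ≤ K) →
    (∀ i < m, (P i).totalDegree ≤ K) → F.vars ⊆ range m → F.totalDegree ≤ K → 1 ≤ B →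
    (∀ k < m, nrm g (1 / 2) (chr P (Φ k - P k)) ≤ B / 2 ^ g k) →
    (∀ b : ℕ → ℝ, (∀ k < m, |nat g Φ b k| ≤ 1) → |eval b F| ≤ S) →
    nrm g (1 / 2) (chr P F) ≤ C * B ^ D * S := by
  obtain ⟨C₁, D₁, h1, hg⟩ := grow_fr m K
  obtain ⟨C₂, h2, hs⟩ := Pool.SYS35.nrm_of_sup m (K * (K + 1) ^ m)
  refine ⟨C₂ * (C₁ * 2 ^ D₁), D₁, ?_, ?_⟩
  · have : (1 : ℝ) ≤ 2 ^ D₁ := one_le_pow₀ (by norm_num)
    have h3 : 1 ≤ C₁ * 2 ^ D₁ := by nlinarith
    nlinarith
  intro g Φ P F S B hΦ hP dΦ dP hv hd hB hn hS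
  have hS0 : 0 ≤ S := (abs_nonneg _).trans (hS (pt g Φ fun _ => 0) fun k _ => by
    rw [nat_pt hΦ, abs_zero]
    exact zero_le_one)
  have key : ∀ ζ : ℕ → ℝ, (∀ i < m, |ζ i| ≤ (1 / 2 : ℝ) ^ g i) →
      |eval ζ (chr P F)| ≤ C₁ * (2 * B) ^ D₁ * S := by
    intro ζ hζ
    rw [chr_eval']
    refine hg g Φ F S (2 * B) hΦ dΦ (by linarith) hv hd hS _ fun k hk => ?_
    have e1 : nat g Φ (ps P ζ) k = 2 ^ g k * ζ k - 2 ^ g k * eval ζ (chr P (Φ k - P k)) := by
      rw [chr_eval', map_sub]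
      unfold nat
      rw [ps_eq hP ζ k]
      ring
    have e2 : |eval ζ (chr P (Φ k - P k))| ≤ B / 2 ^ g k := by
      have := eval_le_nrm (n := k) (K := max (Φ k - P k).totalDegree
        (chr P (Φ k - P k)).totalDegree) (F := chr P (Φ k - P k))
        (chr_vars hP (AdxRow.vars_sub_le (hΦ k) (hP k))) (le_max_right _ _) g (B := 1) le_rfl
        (b := ζ) (fun i hi => by
          rw [← half_pow]
          exact hζ i (hi.trans hk))
      rw [one_pow, one_mul] at this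
      exact this.trans (hn k hk)
    have e3 : |2 ^ g k * ζ k| ≤ 1 := by
      rw [abs_mul, abs_of_pos (by positivity)]
      have := hζ k hk
      rw [half_pow, le_div_iff₀ (by positivity)] at this
      linarith
    have e4 : |2 ^ g k * eval ζ (chr P (Φ k - P k))| ≤ B := by
      rw [abs_mul, abs_of_pos (by positivity)]
      rw [le_div_iff₀ (by positivity)] at e2
      linarith
    rw [e1]
    have := abs_sub (2 ^ g k * ζ k) (2 ^ g k * eval ζ (chr P (Φ k - P k)))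
    linarith
  refine (hs g (1 / 2) (chr P F) (C₁ * (2 * B) ^ D₁ * S) (by norm_num) (chr_vars hP hv)
    (chr_deg hP dP hv hd) key).trans (le_of_eq ?_)
  rw [mul_pow]
  ring

end Pool.FRM
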