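import Pool.Agent.H41.FRM.Chr

/-!
# Composite sheets

`Fb`, `F₁`: two systems in the chart of a third one to which both are near, with the levels `gb`,
`g₁`. A coordinate is thin if it is deeper at the second place. The composite point with the
coordinates `u` has the coordinates `u` over `Fb` for the fat coordinates and lies on the sheets
of `F₁` for the thin ones.
-/

set_option autoImplicit false

namespace Pool.FRM

open Finset Real MvPolynomial
open Pool.STAT Pool.MIC.Frm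
open Pool.SYS35 (nrm_nonneg')

theorem prod_lip {ι : Type} (s : Finset ι) (k : ι → ℕ) {a a' : ι → ℝ} {ε : ℝ} (hε : 0 ≤ ε)
    (ha : ∀ j ∈ s, |a j| ≤ 1) (ha' : ∀ j ∈ s, |a' j| ≤ 1) (h : ∀ j ∈ s, |a j - a' j| ≤ ε) :
    |∏ j ∈ s, a j ^ k j - ∏ j ∈ s, a' j ^ k j| ≤ (∑ j ∈ s, k j : ℕ) * ε := by
  classical
  have pw : ∀ (x y : ℝ) (m : ℕ), |x| ≤ 1 → |y| ≤ 1 → |x ^ m - y ^ m| ≤ m * |x - y| := by
    intro x y m hx hy
    induction m with
    | zero => simp
    | succ m ih =>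
      have e : x ^ (m + 1) - y ^ (m + 1) = x * (x ^ m - y ^ m) + (x - y) * y ^ m := by ring
      rw [e]
      refine (abs_add_le _ _).trans ?_
      rw [abs_mul, abs_mul, abs_pow]
      have h1 : |x| * |x ^ m - y ^ m| ≤ 1 * (m * |x - y|) :=
        mul_le_mul hx ih (abs_nonneg _) zero_le_one
      have h2 : |x - y| * |y| ^ m ≤ |x - y| * 1 :=
        mul_le_mul_of_nonneg_left (pow_le_one₀ (abs_nonneg _) hy) (abs_nonneg _)
      push_cast
      linarith
  induction s using Finset.induction_on with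
  | empty => simp
  | insert i s hi ih =>
    rw [Finset.prod_insert hi, Finset.prod_insert hi, Finset.sum_insert hi]
    have ih' := ih (fun j hj => ha j (Finset.mem_insert_of_mem hj))
      (fun j hj => ha' j (Finset.mem_insert_of_mem hj))
      (fun j hj => h j (Finset.mem_insert_of_mem hj))
    have a1 := ha i (Finset.mem_insert_self _ _)
    have a2 := ha' i (Finset.mem_insert_self _ _)
    have a3 := h i (Finset.mem_insert_self _ _)
    have b1 : |∏ j ∈ s, a' j ^ k j| ≤ 1 := by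
      rw [Finset.abs_prod]
      refine Finset.prod_le_one (fun _ _ => abs_nonneg _) fun j hj => ?_
      rw [abs_pow]
      exact pow_le_one₀ (abs_nonneg _) (ha' j (Finset.mem_insert_of_mem hj))
    have b2 : |a i ^ k i| ≤ 1 := by
      rw [abs_pow]
      exact pow_le_one₀ (abs_nonneg _) a1
    have e : a i ^ k i * ∏ j ∈ s, a j ^ k j - a' i ^ k i * ∏ j ∈ s, a' j ^ k j =
        a i ^ k i * (∏ j ∈ s, a j ^ k j - ∏ j ∈ s, a' j ^ k j) +
          (a i ^ k i - a' i ^ k i) * ∏ j ∈ s, a' j ^ k j := by ring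
    rw [e]
    refine (abs_add_le _ _).trans ?_
    rw [abs_mul, abs_mul]
    have h1 : |a i ^ k i| * |∏ j ∈ s, a j ^ k j - ∏ j ∈ s, a' j ^ k j| ≤
        1 * ((∑ j ∈ s, k j : ℕ) * ε) := mul_le_mul b2 ih' (abs_nonneg _) zero_le_one
    have h2 : |a i ^ k i - a' i ^ k i| * |∏ j ∈ s, a' j ^ k j| ≤ (k i * ε) * 1 := by
      refine mul_le_mul ((pw _ _ _ a1 a2).trans ?_) b1 (abs_nonneg _) (by positivity)
      exact mul_le_mul_of_nonneg_left a3 (Nat.cast_nonneg _)
    push_cast at h1 ⊢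
    linarith

/-- The variation on a box. -/
theorem nrm_lip {n K : ℕ} {F : PN} (hv : F.vars ⊆ range n) (hK : F.totalDegree ≤ K)
    (d : ℕ → ℕ) {B δ : ℝ} (hB : 1 ≤ B) (hδ : 0 ≤ δ) {b b' : ℕ → ℝ}
    (hb : ∀ i < n, |b i| ≤ B / 2 ^ d i) (hb' : ∀ i < n, |b' i| ≤ B / 2 ^ d i)
    (hd : ∀ i < n, |b i - b' i| ≤ δ / 2 ^ d i) :
    |eval b F - eval b' F| ≤ K * B ^ K * nrm d (1 / 2) F * δ := by
  have hB0 : 0 < B := by linarith
  rw [eval_eq, eval_eq, ← Finset.sum_sub_distrib]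
  unfold nrm
  rw [Finset.mul_sum, Finset.sum_mul]
  refine (Finset.abs_sum_le_sum_abs _ _).trans (Finset.sum_le_sum fun k hk => ?_)
  rw [← mul_sub, abs_mul]
  have h3 : (∑ i ∈ k.support, k i) ≤ K := (le_totalDegree hk).trans hK
  have hsc : ∀ b : ℕ → ℝ, ∏ i ∈ k.support, b i ^ k i =
      B ^ (∑ i ∈ k.support, k i) * (1 / 2) ^ Finsupp.weight d k *
        ∏ i ∈ k.support, (b i * 2 ^ d i / B) ^ k i := by
    intro b
    have h2 : (∏ i ∈ k.support, (B ^ k i * (1 / 2 : ℝ) ^ (k i * d i))) =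
        B ^ (∑ i ∈ k.support, k i) * (1 / 2) ^ Finsupp.weight d k := by
      rw [Finset.prod_mul_distrib, Finset.prod_pow_eq_pow_sum, Finset.prod_pow_eq_pow_sum]
      congr 2
    rw [← h2, ← Finset.prod_mul_distrib]
    refine Finset.prod_congr rfl fun i _ => ?_
    rw [mul_comm (k i) (d i), pow_mul, ← mul_pow, ← mul_pow, half_pow]
    congr 1
    field_simp
  have hle : ∀ i ∈ k.support, i < n := fun i hi => Pool.SYS35.vars_of_mem hv hk hi
  have hbox : ∀ b : ℕ → ℝ, (∀ i < n, |b i| ≤ B / 2 ^ d i) →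
      ∀ i ∈ k.support, |b i * 2 ^ d i / B| ≤ 1 := by
    intro b hb i hi
    have := hb i (hle i hi)
    rw [le_div_iff₀ (by positivity)] at this
    rw [abs_div, abs_mul, abs_of_pos hB0, abs_of_pos (by positivity : (0 : ℝ) < 2 ^ d i),
      div_le_one hB0]
    exact this
  rw [hsc b, hsc b', ← mul_sub, abs_mul,
    abs_of_nonneg (by positivity : 0 ≤ B ^ (∑ i ∈ k.support, k i) *
      (1 / 2 : ℝ) ^ Finsupp.weight d k)]
  have h4 := prod_lip k.support (fun i => k i) (a := fun i => b i * 2 ^ d i / B)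
    (a' := fun i => b' i * 2 ^ d i / B) hδ (hbox b hb) (hbox b' hb') (fun i hi => by
      have := hd i (hle i hi)
      rw [le_div_iff₀ (by positivity)] at this
      have e : b i * 2 ^ d i / B - b' i * 2 ^ d i / B = (b i - b' i) * 2 ^ d i / B := by ring
      rw [e, abs_div, abs_mul, abs_of_pos hB0, abs_of_pos (by positivity : (0 : ℝ) < 2 ^ d i)]
      calc |b i - b' i| * 2 ^ d i / B ≤ δ / B := div_le_div_of_nonneg_right this hB0.le
        _ ≤ δ / 1 := div_le_div_of_nonneg_left hδ zero_lt_one hB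
        _ = δ := div_one δ)
  have h5 : ((∑ i ∈ k.support, k i : ℕ) : ℝ) * δ ≤ K * δ :=
    mul_le_mul_of_nonneg_right (by exact_mod_cast h3) hδ
  calc |coeff k F| * (B ^ (∑ i ∈ k.support, k i) * (1 / 2) ^ Finsupp.weight d k *
        |∏ i ∈ k.support, (b i * 2 ^ d i / B) ^ k i -
          ∏ i ∈ k.support, (b' i * 2 ^ d i / B) ^ k i|)
      ≤ |coeff k F| * (B ^ K * (1 / 2) ^ Finsupp.weight d k * (K * δ)) := by
        refine mul_le_mul_of_nonneg_left (mul_le_mul (mul_le_mul_of_nonneg_right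
          (pow_le_pow_right₀ hB h3) (by positivity)) (h4.trans h5) (abs_nonneg _)
          (by positivity)) (abs_nonneg _)
    _ = K * B ^ K * (|coeff k F| * (1 / 2) ^ Finsupp.weight d k) * δ := by ring

/-! ### Exponents -/

/-- The exponents of the errors. -/
def dd (K l : ℕ) : ℕ := (K + 5) ^ (l + 1)

theorem dd_step (K l : ℕ) : (K + 1) * dd K l + K + 4 ≤ dd K (l + 1) := by
  have h1 : dd K (l + 1) = (K + 5) * dd K l := by
    unfold dd
    ring
  have h2 : K + 5 ≤ dd K l := by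
    unfold dd
    calc K + 5 = (K + 5) ^ 1 := (pow_one _).symm
      _ ≤ (K + 5) ^ (l + 1) := Nat.pow_le_pow_right (by omega) (by omega)
  rw [h1]
  nlinarith

theorem dd_mono {K l l' : ℕ} (h : l ≤ l') : dd K l ≤ dd K l' :=
  Nat.pow_le_pow_right (by omega) (by omega)

theorem dd_pos (K l : ℕ) : 1 ≤ dd K l := Nat.one_le_pow _ _ (by omega)

/-- The size of a value: `B ^ K * E` and a summand. -/
theorem sz1 {K l : ℕ} {E W : ℝ} (hE : 1 ≤ E) (hW : W = 4 * E) :
    (W ^ dd K l) ^ K * E + E ≤ W ^ dd K (l + 1) := by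
  have hW4 : 4 ≤ W := by linarith
  have h1 : (1 : ℝ) ≤ (W ^ dd K l) ^ K := one_le_pow₀ (one_le_pow₀ (by linarith))
  have h2 : (W ^ dd K l) ^ K * W ≤ W ^ dd K (l + 1) := by
    rw [← pow_mul, ← pow_succ]
    refine pow_le_pow_right₀ (by linarith) ?_
    have := dd_step K l
    nlinarith
  refine le_trans ?_ h2
  generalize (W ^ dd K l) ^ K = x at h1
  rw [hW]
  nlinarith

/-- The size of a variation. -/
theorem sz2 {K l : ℕ} {E W : ℝ} (hE : 1 ≤ E) (hW : W = 4 * E) :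
    K * (W ^ dd K l) ^ K * E * W ^ dd K l + 2 ≤ W ^ dd K (l + 1) := by
  have hW4 : 4 ≤ W := by linarith
  have hW0 : 0 < W := by linarith
  have h0 : (K : ℝ) ≤ W ^ K := by
    calc (K : ℝ) ≤ 2 ^ K := by exact_mod_cast (Nat.lt_two_pow_self (n := K)).le
      _ ≤ W ^ K := pow_le_pow_left₀ (by norm_num) (by linarith) _
  have h1 : (1 : ℝ) ≤ (W ^ dd K l) ^ K := one_le_pow₀ (one_le_pow₀ (by linarith))
  have h2 : (1 : ℝ) ≤ W ^ dd K l := one_le_pow₀ (by linarith)
  have h4 : (1 : ℝ) ≤ W ^ K := one_le_pow₀ (by linarith)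
  have h5 : W ^ K * (W ^ dd K l) ^ K * W * W ^ dd K l ≤ W ^ dd K (l + 1) := by
    rw [← pow_mul, ← pow_add, ← pow_succ, ← pow_add]
    refine pow_le_pow_right₀ (by linarith) ?_
    have := dd_step K l
    nlinarith
  refine le_trans ?_ h5
  have h6 : (1 : ℝ) ≤ W ^ K * (W ^ dd K l) ^ K * W ^ dd K l :=
    one_le_mul_of_one_le_of_one_le (one_le_mul_of_one_le_of_one_le h4 h1) h2
  have h7 : K * (W ^ dd K l) ^ K * E * W ^ dd K l ≤
      W ^ K * (W ^ dd K l) ^ K * W ^ dd K l * E := by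
    have : K * ((W ^ dd K l) ^ K * E * W ^ dd K l) ≤
        W ^ K * ((W ^ dd K l) ^ K * E * W ^ dd K l) :=
      mul_le_mul_of_nonneg_right h0 (by positivity)
    nlinarith
  have h8 : W ^ K * (W ^ dd K l) ^ K * W * W ^ dd K l =
      W ^ K * (W ^ dd K l) ^ K * W ^ dd K l * W := by ring
  rw [h8]
  refine (add_le_add_left h7 2).trans ?_
  generalize W ^ K * (W ^ dd K l) ^ K * W ^ dd K l = x at h6
  rw [hW]
  nlinarith

/-! ### Systems near to the chart -/

/-- The system `F` is small in the chart, with the levels `g`. -/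
structure Nb (K c : ℕ) (g : ℕ → ℕ) (F : ℕ → PN) (E : ℝ) : Prop where
  vars : ∀ l ≤ c, (F l).vars ⊆ range l
  deg : ∀ l ≤ c, (F l).totalDegree ≤ K
  nrm_le : ∀ l ≤ c, nrm g (1 / 2) (F l) ≤ E / 2 ^ g l

theorem Nb.val {K c : ℕ} {g : ℕ → ℕ} {F : ℕ → PN} {E : ℝ} (h : Nb K c g F E) {l : ℕ}
    (hl : l ≤ c) {B : ℝ} (hB : 1 ≤ B) {β : ℕ → ℝ} (hβ : ∀ k < l, |β k| ≤ B / 2 ^ g k) :
    |eval β (F l)| ≤ B ^ K * E / 2 ^ g l := by
  refine (eval_le_nrm (h.vars l hl) (h.deg l hl) g hB hβ).trans ?_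
  rw [mul_div_assoc]
  exact mul_le_mul_of_nonneg_left (h.nrm_le l hl) (by positivity)

theorem Nb.lip {K c : ℕ} {g : ℕ → ℕ} {F : ℕ → PN} {E : ℝ} (h : Nb K c g F E) {l : ℕ}
    (hl : l ≤ c) {B δ : ℝ} (hB : 1 ≤ B) (hδ : 0 ≤ δ) {β β' : ℕ → ℝ}
    (hβ : ∀ k < l, |β k| ≤ B / 2 ^ g k) (hβ' : ∀ k < l, |β' k| ≤ B / 2 ^ g k)
    (hd : ∀ k < l, |β k - β' k| ≤ δ / 2 ^ g k) :
    |eval β (F l) - eval β' (F l)| ≤ K * B ^ K * E * δ / 2 ^ g l := by
  refine (nrm_lip (h.vars l hl) (h.deg l hl) g hB hδ hβ hβ' hd).trans ?_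
  have h1 : K * B ^ K * nrm g (1 / 2) (F l) * δ ≤ K * B ^ K * (E / 2 ^ g l) * δ :=
    mul_le_mul_of_nonneg_right (mul_le_mul_of_nonneg_left (h.nrm_le l hl) (by positivity)) hδ
  refine h1.trans (le_of_eq ?_)
  ring

/-- The chart coordinates `ζ` of a point with the natural coordinates `y` over `F`. -/
def Pt (c : ℕ) (g : ℕ → ℕ) (F : ℕ → PN) (y ζ : ℕ → ℝ) : Prop :=
  ζ 0 = 0 ∧ ∀ l, 1 ≤ l → l ≤ c → ζ l = eval ζ (F l) + y l / 2 ^ g l

theorem Nb.pt {K c : ℕ} {g : ℕ → ℕ} {F : ℕ → PN} {E W : ℝ} (h : Nb K c g F E) (hE : 1 ≤ E)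
    (hW : W = 4 * E) {y ζ : ℕ → ℝ} (hp : Pt c g F y ζ) (hy : ∀ l, 1 ≤ l → l ≤ c → |y l| ≤ E) :
    ∀ l ≤ c, |ζ l| ≤ W ^ dd K l / 2 ^ g l := by
  have hW4 : 4 ≤ W := by linarith
  intro l
  induction l using Nat.strong_induction_on with
  | _ l ih =>
    intro hl
    rcases Nat.eq_zero_or_pos l with h0 | h0
    · subst h0
      rw [hp.1, abs_zero]
      positivity
    · obtain ⟨m, rfl⟩ : ∃ m, l = m + 1 := ⟨l - 1, by omega⟩
      rw [hp.2 (m + 1) h0 hl]
      have hB : (1 : ℝ) ≤ W ^ dd K m := one_le_pow₀ (by linarith)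
      have h1 := h.val hl hB (β := ζ) fun k hk => (ih k hk (by omega)).trans
        (div_le_div_of_nonneg_right (pow_le_pow_right₀ (by linarith) (dd_mono (by omega)))
          (by positivity))
      have h2 : |y (m + 1) / 2 ^ g (m + 1)| ≤ E / 2 ^ g (m + 1) := by
        rw [abs_div, abs_of_pos (by positivity : (0 : ℝ) < 2 ^ g (m + 1))]
        exact div_le_div_of_nonneg_right (hy _ h0 hl) (by positivity)
      refine (abs_add_le _ _).trans ((add_le_add h1 h2).trans ?_)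
      rw [← add_div]
      exact div_le_div_of_nonneg_right (sz1 hE hW) (by positivity)

end Pool.FRM
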