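import Pool.Agent.H41.FRM.Cmp3

/-!
# Two points, mixed boxes

`Nb.two`: two points with the same coordinates in `M` and near to the frame outside. `mix_bd`: the
points of a mixed box. `Nb.small`: the variation of a label at a place where the box is small.
-/

set_option autoImplicit false

namespace Pool.FRM

open Finset Real MvPolynomial
open Pool.STAT Pool.MIC.Frm

theorem Wone {K : ℕ} {E W : ℝ} (hE : 1 ≤ E) (hW : W = 4 * E) (k : ℕ) : 4 ≤ W ^ dd K k := by
  have hW4 : 4 ≤ W := by linarith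
  calc (4 : ℝ) ≤ W := hW4
    _ = W ^ 1 := (pow_one _).symm
    _ ≤ W ^ dd K k := pow_le_pow_right₀ (by linarith) (dd_pos _ _)

/-- **Two points** with the same coordinates in `M`, near to each other outside `M`. -/
theorem Nb.two {K n : ℕ} {g : ℕ → ℕ} {F : ℕ → PN} {E W ε : ℝ} (h : Nb K n g F E) (hE : 1 ≤ E)
    (hW : W = 4 * E) (hε : 0 ≤ ε) {M : ℕ → Prop} {u β u' β' : ℕ → ℝ} (p : Ptl n g F u β)
    (p' : Ptl n g F u' β') (hu : ∀ l, 1 ≤ l → l < n → |u l| ≤ E)
    (hu' : ∀ l, 1 ≤ l → l < n → |u' l| ≤ E)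
    (hM : ∀ l, 1 ≤ l → l < n → M l → |u l - u' l| ≤ ε)
    (hn : ∀ l, 1 ≤ l → l < n → ¬ M l → |β l - β' l| ≤ ε / 2 ^ g l) :
    ∀ l, 1 ≤ l → l < n → |u l - u' l| ≤ W ^ dd K (l + 2) * ε := by
  have hW4 : 4 ≤ W := by linarith
  have hz := h.ptl hE hW p hu
  have hz' := h.ptl hE hW p' hu'
  -- the variation of the labels
  have lp : ∀ l < n, (∀ k < l, |β k - β' k| ≤ W ^ dd K (k + 1) * ε / 2 ^ g k) →
      2 ^ g l * |eval β (F l) - eval β' (F l)| + 2 * ε ≤ W ^ dd K (l + 1) * ε := by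
    intro l hl hk
    have hB : (1 : ℝ) ≤ W ^ dd K l := one_le_pow₀ (by linarith)
    have e1 := h.lip (l := l) hl.le hB (δ := W ^ dd K l * ε) (by positivity)
      (β := β) (β' := β')
      (fun k hk => (hz k (hk.trans hl)).trans (div_le_div_of_nonneg_right
        (wpow hE hW hk.le) (by positivity)))
      (fun k hk => (hz' k (hk.trans hl)).trans (div_le_div_of_nonneg_right
        (wpow hE hW hk.le) (by positivity)))
      (fun k hk' => (hk k hk').trans (div_le_div_of_nonneg_right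
        (mul_le_mul_of_nonneg_right (wpow hE hW (by omega)) hε) (by positivity)))
    calc 2 ^ g l * |eval β (F l) - eval β' (F l)| + 2 * ε
        ≤ 2 ^ g l * (K * (W ^ dd K l) ^ K * E * (W ^ dd K l * ε) / 2 ^ g l) + 2 * ε :=
          add_le_add_left (mul_le_mul_of_nonneg_left e1 (by positivity)) _
      _ = (K * (W ^ dd K l) ^ K * E * W ^ dd K l + 2) * ε := by field_simp
      _ ≤ W ^ dd K (l + 1) * ε :=
          mul_le_mul_of_nonneg_right (sz2 (K := K) (l := l) hE hW) hε
  have near : ∀ l < n, |β l - β' l| ≤ W ^ dd K (l + 1) * ε / 2 ^ g l := by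
    intro l
    induction l using Nat.strong_induction_on with
    | _ l ih =>
      intro hl
      rcases Nat.eq_zero_or_pos l with h0 | h0
      · subst h0
        rw [p.1, p'.1, sub_self, abs_zero]
        positivity
      · by_cases hM' : M l
        · have e1 := lp l hl fun k hk => ih k hk (hk.trans hl)
          have e2 := hM l h0 hl hM'
          have hg : (0 : ℝ) < 2 ^ g l := by positivity
          rw [le_div_iff₀ hg]
          have e3 : (β l - β' l) * 2 ^ g l = 2 ^ g l * (eval β (F l) - eval β' (F l)) +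
              (u l - u' l) := by
            rw [p.2 l h0 hl, p'.2 l h0 hl]
            field_simp
            ring
          have e4 : |β l - β' l| * 2 ^ g l = |(β l - β' l) * 2 ^ g l| := by
            rw [abs_mul, abs_of_pos hg]
          rw [e4, e3]
          refine (abs_add_le _ _).trans ?_
          rw [abs_mul, abs_of_pos hg]
          linarith
        · refine (hn l h0 hl hM').trans (div_le_div_of_nonneg_right ?_ (by positivity))
          refine le_mul_of_one_le_left hε ?_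
          have := Wone (K := K) hE hW (l + 1)
          linarith
  intro l h1 hl
  have hg : (0 : ℝ) < 2 ^ g l := by positivity
  have e1 := lp l hl fun k hk => near k (hk.trans hl)
  have e2 := near l hl
  rw [le_div_iff₀ hg] at e2
  have e3 : u l - u' l = (β l - β' l) * 2 ^ g l - 2 ^ g l * (eval β (F l) - eval β' (F l)) := by
    rw [p.2 l h1 hl, p'.2 l h1 hl]
    field_simp
    ring
  have e4 : |(β l - β' l) * 2 ^ g l| ≤ W ^ dd K (l + 1) * ε := by
    rw [abs_mul, abs_of_pos hg]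
    exact e2
  have e5 : |2 ^ g l * (eval β (F l) - eval β' (F l))| ≤ W ^ dd K (l + 1) * ε := by
    rw [abs_mul, abs_of_pos hg]
    linarith
  rw [e3]
  refine (abs_sub _ _).trans ((add_le_add e4 e5).trans ?_)
  have a1 := w3 (K := K) (l := l + 1) hW4
  have a3 : 0 < W ^ dd K (l + 1) := by positivity
  rw [← add_mul]
  exact mul_le_mul_of_nonneg_right (by linarith) hε

/-- **The mixed box.** -/
theorem mix_bd {K c : ℕ} {gb g₁ : ℕ → ℕ} {Fb F₁ : ℕ → PN} {E W : ℝ} (hb : Nb K c gb Fb E)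
    (h₁ : Nb K c g₁ F₁ E) (hE : 1 ≤ E) (hW : W = 4 * E) {β : ℕ → ℝ} (h0 : β 0 = 0)
    (hth : ∀ l, 1 ≤ l → l < c → gb l < g₁ l → |β l - eval β (F₁ l)| ≤ E / 2 ^ g₁ l)
    (hft : ∀ l, 1 ≤ l → l < c → g₁ l ≤ gb l → |β l - eval β (Fb l)| ≤ E / 2 ^ gb l) :
    ∀ l < c, |β l| ≤ W ^ dd K l / 2 ^ gb l ∧ |β l| ≤ W ^ dd K l / 2 ^ g₁ l := by
  have hW4 : 4 ≤ W := by linarith
  intro l
  induction l using Nat.strong_induction_on with
  | _ l ih =>
    intro hl
    rcases Nat.eq_zero_or_pos l with h0' | h0'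
    · subst h0'
      rw [h0, abs_zero]
      constructor <;> positivity
    · obtain ⟨m, rfl⟩ : ∃ m, l = m + 1 := ⟨l - 1, by omega⟩
      have hB : (1 : ℝ) ≤ W ^ dd K m := one_le_pow₀ (by linarith)
      have ib : ∀ k < m + 1, |β k| ≤ W ^ dd K m / 2 ^ gb k := fun k hk =>
        (ih k hk (by omega)).1.trans (div_le_div_of_nonneg_right (wpow hE hW (by omega))
          (by positivity))
      have io : ∀ k < m + 1, |β k| ≤ W ^ dd K m / 2 ^ g₁ k := fun k hk =>
        (ih k hk (by omega)).2.trans (div_le_div_of_nonneg_right (wpow hE hW (by omega))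
          (by positivity))
      have hWp : 0 < W ^ dd K (m + 1) := by positivity
      have hs := sz1 (K := K) (l := m) hE hW
      rcases lt_or_ge (gb (m + 1)) (g₁ (m + 1)) with ht | ht
      · have e1 := h₁.val (l := m + 1) (by omega) hB io
        have e2 : |β (m + 1)| ≤ W ^ dd K (m + 1) / 2 ^ g₁ (m + 1) := by
          have e3 : β (m + 1) = eval β (F₁ (m + 1)) + (β (m + 1) - eval β (F₁ (m + 1))) := by
            ring
          rw [e3]
          refine (abs_add_le _ _).trans ((add_le_add e1 (hth _ h0' hl ht)).trans ?_)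
          rw [← add_div]
          exact div_le_div_of_nonneg_right hs (by positivity)
        exact ⟨e2.trans (div_le_div_of_nonneg_left hWp.le (by positivity)
          (pow_le_pow_right₀ (by norm_num) ht.le)), e2⟩
      · have e1 := hb.val (l := m + 1) (by omega) hB ib
        have e2 : |β (m + 1)| ≤ W ^ dd K (m + 1) / 2 ^ gb (m + 1) := by
          have e3 : β (m + 1) = eval β (Fb (m + 1)) + (β (m + 1) - eval β (Fb (m + 1))) := by
            ring
          rw [e3]
          refine (abs_add_le _ _).trans ((add_le_add e1 (hft _ h0' hl ht)).trans ?_)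
          rw [← add_div]
          exact div_le_div_of_nonneg_right hs (by positivity)
        exact ⟨e2, e2.trans (div_le_div_of_nonneg_left hWp.le (by positivity)
          (pow_le_pow_right₀ (by norm_num) ht))⟩

/-- The value of the label at the second place. -/
theorem mix_val {K c : ℕ} {gb g₁ : ℕ → ℕ} {Fb F₁ : ℕ → PN} {E W : ℝ} (hb : Nb K c gb Fb E)
    (h₁ : Nb K c g₁ F₁ E) (hE : 1 ≤ E) (hW : W = 4 * E) {β : ℕ → ℝ} (h0 : β 0 = 0)
    (hth : ∀ l, 1 ≤ l → l < c → gb l < g₁ l → |β l - eval β (F₁ l)| ≤ E / 2 ^ g₁ l)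
    (hft : ∀ l, 1 ≤ l → l < c → g₁ l ≤ gb l → |β l - eval β (Fb l)| ≤ E / 2 ^ gb l) :
    |eval β (F₁ c)| ≤ W ^ dd K (c + 1) / 2 ^ g₁ c := by
  have hW4 : 4 ≤ W := by linarith
  have h := mix_bd hb h₁ hE hW h0 hth hft
  have hB : (1 : ℝ) ≤ W ^ dd K c := one_le_pow₀ (by linarith)
  have e1 := h₁.val (l := c) le_rfl hB (fun k hk => (h k hk).2.trans
    (div_le_div_of_nonneg_right (wpow hE hW hk.le) (by positivity)))
  refine e1.trans (div_le_div_of_nonneg_right ?_ (by positivity))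
  have := sz1 (K := K) (l := c) hE hW
  linarith

/-! ### The relation of the sheets follows from the bounds before -/

theorem El.mono {K n n' : ℕ} {gb : ℕ → ℕ} {Fb : ℕ → PN} {gp : ℕ → ℕ → ℕ} {Fp : ℕ → ℕ → PN}
    {M : ℕ → Prop} {E ε : ℝ} (H : El K n gb Fb gp Fp M E ε) (h : n' ≤ n) :
    El K n' gb Fb gp Fp M E ε :=
  ⟨fun l a b => H.tr l a (b.trans_le h), fun l a b => H.thM l a (b.trans_le h),
    H.b.mono h le_rfl, H.e1, H.eps, H.eps1⟩

theorem Elp.mono {n n' : ℕ} {gb : ℕ → ℕ} {Fb : ℕ → PN} {gp : ℕ → ℕ → ℕ} {Fp : ℕ → ℕ → PN}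
    {M : ℕ → Prop} {E ε : ℝ} {u β uo yo ζ : ℕ → ℝ} {bl cl : ℕ → ℕ → ℝ}
    (H : Elp n gb Fb gp Fp M E ε u β uo yo ζ bl cl) (h : n' ≤ n) :
    Elp n' gb Fb gp Fp M E ε u β uo yo ζ bl cl :=
  ⟨H.pt.mono h, fun l a b => H.uM l a (b.trans_le h), H.own.mono h,
    fun l b => H.ζ0 l (b.trans_le h), fun l a b => H.yoE l a (b.trans_le h),
    fun l a b => H.uoE l a (b.trans_le h), fun l a b => H.uy l a (b.trans_le h),
    fun l a b => H.cb l a (b.trans_le h), fun l a b => H.cc l a (b.trans_le h),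
    fun l a b => H.rel l a (b.trans_le h)⟩

/-- The relation may be proved with the bounds of the coordinates before. -/
theorem Elp.of {K n : ℕ} {gb : ℕ → ℕ} {Fb : ℕ → PN} {gp : ℕ → ℕ → ℕ} {Fp : ℕ → ℕ → PN}
    {M : ℕ → Prop} {E ε : ℝ} {u β uo yo ζ : ℕ → ℝ} {bl cl : ℕ → ℕ → ℝ}
    (H : El K n gb Fb gp Fp M E ε) (pt : Ptl n gb Fb u β)
    (uM : ∀ l, 1 ≤ l → l < n → M l → |u l| ≤ E) (own : Ptl n gb Fb yo ζ)
    (ζ0 : ∀ l < n, ζ l = 0) (yoE : ∀ l, 1 ≤ l → l < n → |yo l| ≤ E)
    (uoE : ∀ l, 1 ≤ l → l < n → |uo l| ≤ E) (uy : ∀ l, 1 ≤ l → l < n → |uo l - yo l| ≤ ε)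
    (cb : ∀ l, 1 ≤ l → l < n → ¬ M l → Cp l gb Fb (Fp l) (fun k => gb k < gp l k) u (bl l))
    (cc : ∀ l, 1 ≤ l → l < n → ¬ M l → Cp l gb Fb (Fp l) (fun k => gb k < gp l k) uo (cl l))
    (rel : ∀ l, 1 ≤ l → l < n → ¬ M l → (∀ k, 1 ≤ k → k < l → |u k| ≤ zc K E (k + 1)) →
      |u l - uo l - 2 ^ gb l * ((eval (bl l) (Fp l l) - eval (bl l) (Fb l)) -
        (eval (cl l) (Fp l l) - eval (cl l) (Fb l)))| ≤ ε) :
    Elp n gb Fb gp Fp M E ε u β uo yo ζ bl cl := by
  have key : ∀ m ≤ n, Elp m gb Fb gp Fp M E ε u β uo yo ζ bl cl := by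
    intro m
    induction m with
    | zero =>
      intro _
      exact ⟨pt.mono (Nat.zero_le _), fun l a b => absurd b (Nat.not_lt_zero _),
        own.mono (Nat.zero_le _), fun l b => absurd b (Nat.not_lt_zero _),
        fun l a b => absurd b (Nat.not_lt_zero _), fun l a b => absurd b (Nat.not_lt_zero _),
        fun l a b => absurd b (Nat.not_lt_zero _), fun l a b => absurd b (Nat.not_lt_zero _),
        fun l a b => absurd b (Nat.not_lt_zero _), fun l a b => absurd b (Nat.not_lt_zero _)⟩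
    | succ m ih =>
      intro hm
      have h := ih (by omega)
      have s := (H.mono (by omega : m ≤ n)).small h
      refine ⟨pt.mono hm, fun l a b => uM l a (b.trans_le hm), own.mono hm,
        fun l b => ζ0 l (b.trans_le hm), fun l a b => yoE l a (b.trans_le hm),
        fun l a b => uoE l a (b.trans_le hm), fun l a b => uy l a (b.trans_le hm),
        fun l a b => cb l a (b.trans_le hm), fun l a b => cc l a (b.trans_le hm),
        fun l a b hM => rel l a (b.trans_le hm) hM fun k k1 k2 => (s k k1 (by omega)).1⟩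
  exact key n le_rfl

end Pool.FRM
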